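import Mathlib
import Pool.Agent.Helper62.DL.Defs

/-!
# Global dimension theorem (project DG, `MP_2c9d0b_al`)

`High W e f`: all monomials of `f` have weight less than `e`.
-/

open MvPolynomial

namespace Pool.Agent.Helper62.DG

/-- All monomials of `f` have `W`-weight less than `e`. -/
def High {υ R : Type*} [CommSemiring R] (W : υ → ℕ) (e : ℕ) (f : MvPolynomial υ R) : Prop :=
  ∀ γ ∈ f.support, Finsupp.weight W γ < e

end Pool.Agent.Helper62.DG
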