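import Mathlib
import Pool.Agent.Helper62.DG.Defs

/-!
PROJECT DG, piece CI8 (about 120 lines). The core inequality at infinity; compare `DL/St/CI.lean`.

Proof. Weights `wa 0` (every variable has weight 1, so the weight is the degree). All values `W (δ^k x_j)` are
`≤ μ` (for parameters `≤ 1 ≤ μ`), so a polynomial `g` with `High (wa 0) (r + 1) g` has
`W (g(x)) ≤ μ^r` (as `1 < μ`; monomial by monomial), and if `0 < e`, `High (wa 0) e g` then
`W (g(x)) ≤ μ^(e-1)`. So `W (û_m(x)) ≤ max (W (u_m(x))) (W (t_m(x))) ≤ μ^(e_m) ρ'` with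
`ρ' = max ρ μ⁻¹ < 1`, and the same for `δ^l (û_m(x)) = ev .. ((dext d)^[l] (uh m))` (`ev_dext_iterate`). In
`hid` evaluated at `x` every term on the right has value `≤ μ^N ρ' < μ^N`: `a` of degree `≤ r`,
`r + e_m ≤ N`; `b` of degree `≤ r`, `r + 1 ≤ N`, times a parameter derivative of value `≤ 1 = μ⁻¹ μ`. So
`W (x_j)^N < μ^N` and `W (x_j) < μ`.
-/

open MvPolynomial

namespace Pool.Agent.Helper62.DG

open Pool.Agent.Helper21.PD Pool.Agent.Helper62.DL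

theorem CI8.iter {S : Type} [CommRing S] (δ : Der S)
    (W : Valuation S Γ₀) (hδ : ∀ x, W (δ x) ≤ W x) (k : ℕ) (y : S) :
    W ((δ)^[k] y) ≤ W y := by
  induction k with
  | zero => simp
  | succ k ih =>
    rw [Function.iterate_succ_apply']
    exact (hδ _).trans ih

theorem CI8.val_le {K S : Type} [Field K] [CommRing S] (f : K →+* S) (δ : Der S)
    (W : Valuation S Γ₀) (hf : ∀ a, W (f a) ≤ 1) (μ : Γ₀) (hμ1 : 1 ≤ μ)
    (hδ : ∀ x, W (δ x) ≤ W x) {υ : Type} (x : υ → S) (hx : ∀ j, W (x j) ≤ μ)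
    (r : ℕ) (g : MvPolynomial (υ × ℕ) K) (hg : High (wa 0) (r + 1) g) :
    W (ev f δ x g) ≤ μ ^ r := by
  classical
  conv_lhs => rw [g.as_sum, map_sum]
  refine W.map_sum_le fun γ hγ => ?_
  rw [MvPolynomial.monomial_eq, map_mul, ev_C, map_mul, Finsupp.prod, map_prod, map_prod]
  have h1 : ∏ v ∈ γ.support, W (ev f δ x (X v ^ γ v)) ≤
      ∏ v ∈ γ.support, μ ^ (γ v * (1 + 0 * v.2)) := by
    refine Finset.prod_le_prod' fun v _ => ?_
    rw [map_pow, map_pow, ev_X]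
    calc W ((δ)^[v.2] (x v.1)) ^ γ v ≤ μ ^ γ v :=
          pow_le_pow_left' ((CI8.iter δ W hδ _ _).trans (hx _)) _
      _ = μ ^ (γ v * (1 + 0 * v.2)) := by
          congr 1
          ring
  have h2 : ∏ v ∈ γ.support, μ ^ (γ v * (1 + 0 * v.2)) =
      μ ^ (Finsupp.weight (wa 0) γ) := by
    rw [Finset.prod_pow_eq_pow_sum, Finsupp.weight_apply, Finsupp.sum]
    congr 1
  calc W (f (coeff γ g)) * ∏ v ∈ γ.support, W (ev f δ x (X v ^ γ v))
      ≤ 1 * μ ^ (Finsupp.weight (wa 0) γ) := by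
        rw [← h2]
        exact mul_le_mul' (hf _) h1
    _ ≤ μ ^ r := by
        rw [one_mul]
        exact pow_le_pow_right' hμ1 (Nat.lt_succ_iff.1 (hg γ hγ))

theorem CI8.core_ineq {K S : Type} [Field K] [CommRing S] (d : Der K) (f : K →+* S) (δ : Der S)
    (hfd : ∀ a, f (d a) = δ (f a)) (W : Valuation S Γ₀) (hf : ∀ a, W (f a) ≤ 1) (μ ρ : Γ₀)
    (hμ1 : 1 < μ) (hρ : ρ < 1) (hδ : ∀ x, W (δ x) ≤ W x) {ι ι' σ : Type} [Fintype ι]
    [Fintype ι'] [Fintype σ] (e : σ → ℕ) (he : ∀ m, 0 < e m)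
    (uh t : σ → MvPolynomial ((ι ⊕ ι') × ℕ) K) (ht : ∀ m, High (wa 0) (e m) (t m))
    (N Mo : ℕ) (a : ι → σ → ℕ → MvPolynomial ((ι ⊕ ι') × ℕ) K)
    (b : ι → ι' → ℕ → MvPolynomial ((ι ⊕ ι') × ℕ) K)
    (ha : ∀ j m l, a j m l = 0 ∨ ∃ r, r + e m ≤ N ∧ High (wa 0) (r + 1) (a j m l))
    (hb : ∀ j l k, b j l k = 0 ∨ ∃ r, r + 1 ≤ N ∧ High (wa 0) (r + 1) (b j l k))
    (hid : ∀ j : ι, X (Sum.inl j, 0) ^ N =
      (∑ m, ∑ l ∈ Finset.range Mo, a j m l * (dext d)^[l] (uh m)) +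
        ∑ l, ∑ k ∈ Finset.range Mo, b j l k * X (Sum.inr l, k))
    (x : ι ⊕ ι' → S) (hx : ∀ j, W (x (Sum.inl j)) ≤ μ) (hxp : ∀ l, W (x (Sum.inr l)) ≤ 1)
    (hu : ∀ m, W (ev f δ x (uh m + t m)) ≤ μ ^ e m * ρ) (j : ι) :
    W (x (Sum.inl j)) < μ := by
  classical
  have hμ0 : μ ≠ 0 := (zero_lt_one.trans hμ1).ne'
  have hxall : ∀ j, W (x j) ≤ μ := by
    rintro (j | l)
    · exact hx j
    · exact (hxp l).trans hμ1.le
  obtain ⟨ρ', hρ'⟩ : ∃ ρ' : Γ₀, ρ' = max ρ μ⁻¹ := ⟨_, rfl⟩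
  have hμinv : μ⁻¹ < 1 := inv_lt_one_of_one_lt₀ hμ1
  have hρ'1 : ρ' < 1 := by
    rw [hρ']
    exact max_lt hρ hμinv
  have hρle : ρ ≤ ρ' := by
    rw [hρ']
    exact le_max_left _ _
  have hμle : μ⁻¹ ≤ ρ' := by
    rw [hρ']
    exact le_max_right _ _
  have hval : ∀ (r : ℕ) (g : MvPolynomial ((ι ⊕ ι') × ℕ) K), High (wa 0) (r + 1) g →
      W (ev f δ x g) ≤ μ ^ r := fun r g hg =>
    CI8.val_le f δ W hf μ hμ1.le hδ x hxall r g hg
  have hdown : ∀ r s : ℕ, r + 1 ≤ s → μ ^ r ≤ μ ^ s * ρ' := by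
    intro r s hrs
    calc μ ^ r = μ ^ (r + 1) * μ⁻¹ := by
          rw [pow_succ, mul_assoc, mul_inv_cancel₀ hμ0, mul_one]
      _ ≤ μ ^ s * ρ' := mul_le_mul' (pow_le_pow_right' hμ1.le hrs) hμle
  have huh : ∀ m, W (ev f δ x (uh m)) ≤ μ ^ e m * ρ' := by
    intro m
    have h1 : ev f δ x (uh m) = ev f δ x (uh m + t m) - ev f δ x (t m) := by
      rw [map_add, add_sub_cancel_right]
    rw [h1]
    refine W.map_sub_le ((hu m).trans (mul_le_mul' le_rfl hρle)) ?_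
    obtain ⟨e', he'⟩ : ∃ e', e m = e' + 1 := ⟨e m - 1, by have := he m; omega⟩
    have h2 : High (wa 0) (e' + 1) (t m) := by
      rw [← he']
      exact ht m
    exact (hval _ _ h2).trans (hdown _ _ (by omega))
  have key : W (x (Sum.inl j)) ^ N ≤ μ ^ N * ρ' := by
    have h1 : W (x (Sum.inl j)) ^ N = W (ev f δ x (X (Sum.inl j, 0) ^ N)) := by
      rw [map_pow, map_pow, ev_X]
      rfl
    rw [h1, hid j, map_add]
    refine W.map_add_le ?_ ?_
    · rw [map_sum]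
      refine W.map_sum_le fun m _ => ?_
      rw [map_sum]
      refine W.map_sum_le fun l _ => ?_
      rw [map_mul, map_mul, ev_dext_iterate f δ x d hfd]
      rcases ha j m l with h0 | ⟨r, hr, hlow⟩
      · rw [h0, map_zero, map_zero, zero_mul]
        exact zero_le
      calc W (ev f δ x (a j m l)) * W ((δ)^[l] (ev f δ x (uh m)))
          ≤ μ ^ r * (μ ^ e m * ρ') :=
            mul_le_mul' (hval _ _ hlow) ((CI8.iter δ W hδ _ _).trans (huh m))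
        _ = μ ^ (r + e m) * ρ' := by
            rw [pow_add, mul_assoc]
        _ ≤ μ ^ N * ρ' := mul_le_mul' (pow_le_pow_right' hμ1.le hr) le_rfl
    · rw [map_sum]
      refine W.map_sum_le fun l _ => ?_
      rw [map_sum]
      refine W.map_sum_le fun k _ => ?_
      rw [map_mul, map_mul, ev_X]
      rcases hb j l k with h0 | ⟨r, hr, hlow⟩
      · rw [h0, map_zero, map_zero, zero_mul]
        exact zero_le
      calc W (ev f δ x (b j l k)) * W ((δ)^[k] (x (Sum.inr l)))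
          ≤ μ ^ r * 1 :=
            mul_le_mul' (hval _ _ hlow) ((CI8.iter δ W hδ _ _).trans (hxp l))
        _ = μ ^ r := mul_one _
        _ ≤ μ ^ N * ρ' := hdown _ _ hr
  by_contra hcon
  push Not at hcon
  have h3 : μ ^ N ≤ μ ^ N * ρ' := (pow_le_pow_left' hcon N).trans key
  have hμN : μ ^ N ≠ 0 := pow_ne_zero N hμ0
  have h4 : μ ^ N * ρ' < μ ^ N * 1 := by
    rw [mul_comm (μ ^ N) ρ', mul_comm (μ ^ N) 1]
    exact mul_lt_mul_of_pos_right hρ'1 (zero_lt_iff.2 hμN)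
  rw [mul_one] at h4
  exact absurd h3 (not_le.2 h4)

end Pool.Agent.Helper62.DG
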