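import Mathlib
import Pool.Agent.Helper62.DL.St.G1
import Pool.Agent.Helper62.DG.Defs

/-!
PROJECT DG, piece G8 (about 150 lines, adapt `DL/St/G1.lean`, proved). The numeric polynomials of `u` at the
points with parameters `β`, with an upper bound for the degree.

Proof. As in G1 with `α = 0`, `τ = 1`: `Φ : MvPolynomial ((ι ⊕ ι') × ℕ) L → MvPolynomial (ι × κ₀) L`,
`(inl j, i) ↦ ∑_k C (D^i (ω k)) * X (j, k)`, `(inr l, i) ↦ C (D^i (β l))`, and `g_k` is obtained by applying
`ω.coord k` to the coefficients of `Φ u`. (One can also apply `G1.exists_numeric` with `α = 0`, `θ = 1` and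
evaluate the variable `τ` at `1`, but the degree bound has to be proved from the construction.) Degree: the
images of the variables have total degree `≤ 1`, so `Φ u` has total degree `≤ e` when all monomials of `u`
have degree `≤ e` (the weight for `wa 0` is the degree), and taking coordinates does not increase it.
-/

open TensorProduct MvPolynomial

namespace Pool.Agent.Helper62.DG

open Pool.Agent.Helper21.PD Pool.Agent.Helper62.DL

/-- Coordinates of a polynomial with coefficients in `L` in the basis `ω`. -/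
theorem G8.exists_coord {C L : Type} [Field C] [Field L] [Algebra C L]
    {κ₀ : Type} [Fintype κ₀] (ω : Module.Basis κ₀ C L) {σ : Type}
    (q : MvPolynomial σ L) :
    ∃ g : κ₀ → MvPolynomial σ C,
      q = ∑ k, MvPolynomial.C (ω k) * MvPolynomial.map (algebraMap C L) (g k) := by
  induction q using MvPolynomial.induction_on with
  | C a =>
    refine ⟨fun k => MvPolynomial.C (ω.repr a k), ?_⟩
    have h1 : a = ∑ k, ω k * algebraMap C L (ω.repr a k) := by
      conv_lhs => rw [← ω.sum_repr a]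
      refine Finset.sum_congr rfl fun k _ => ?_
      rw [Algebra.smul_def, mul_comm]
    conv_lhs => rw [h1]
    rw [map_sum]
    refine Finset.sum_congr rfl fun k _ => ?_
    rw [MvPolynomial.map_C, map_mul]
  | add p q hp hq =>
    obtain ⟨g, hg⟩ := hp
    obtain ⟨g', hg'⟩ := hq
    refine ⟨fun k => g k + g' k, ?_⟩
    rw [hg, hg', ← Finset.sum_add_distrib]
    refine Finset.sum_congr rfl fun k _ => ?_
    rw [map_add, mul_add]
  | mul_X p v hp =>
    obtain ⟨g, hg⟩ := hp
    refine ⟨fun k => g k * X v, ?_⟩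
    rw [hg, Finset.sum_mul]
    refine Finset.sum_congr rfl fun k _ => ?_
    rw [map_mul, MvPolynomial.map_X, mul_assoc]

/-- The images of the variables. -/
noncomputable def G8.var {C L : Type} [Field C] [Field L] [Algebra C L] (D : Der L)
    {κ₀ : Type} [Fintype κ₀] (ω : Module.Basis κ₀ C L) {ι ι' : Type} (β : ι' → L)
    (v : (ι ⊕ ι') × ℕ) : MvPolynomial (ι × κ₀) L :=
  Sum.elim
    (fun j => ∑ k, MvPolynomial.C ((D)^[v.2] (ω k)) * X (j, k))
    (fun l => MvPolynomial.C ((D)^[v.2] (β l))) v.1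

/-- The homomorphism `Φ`. -/
noncomputable def G8.Phi {C L : Type} [Field C] [Field L] [Algebra C L] (D : Der L)
    {κ₀ : Type} [Fintype κ₀] (ω : Module.Basis κ₀ C L) {ι ι' : Type}
    (β : ι' → L) : MvPolynomial ((ι ⊕ ι') × ℕ) L →+* MvPolynomial (ι × κ₀) L :=
  eval₂Hom MvPolynomial.C (G8.var D ω β)

/-- The homomorphism `Ψ`. -/
noncomputable def G8.Psi {C L : Type} [Field C] [Field L] [Algebra C L] {σ : Type}
    (E : Type) [Field E] [Algebra C E] (c : σ → E) :
    MvPolynomial σ L →+* L ⊗[C] E :=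
  eval₂Hom (Algebra.TensorProduct.includeLeftRingHom : L →+* L ⊗[C] E)
    (fun v => 1 ⊗ₜ[C] c v)

theorem G8.Psi_C {C L : Type} [Field C] [Field L] [Algebra C L] {σ : Type}
    (E : Type) [Field E] [Algebra C E] (c : σ → E) (l : L) :
    G8.Psi (C := C) E c (MvPolynomial.C l) = l ⊗ₜ[C] 1 := by
  simp [G8.Psi]

theorem G8.Psi_X {C L : Type} [Field C] [Field L] [Algebra C L] {σ : Type}
    (E : Type) [Field E] [Algebra C E] (c : σ → E) (v : σ) :
    G8.Psi (C := C) (L := L) E c (X v) = 1 ⊗ₜ[C] c v := by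
  simp [G8.Psi]

theorem G8.Psi_map {C L : Type} [Field C] [Field L] [Algebra C L] {σ : Type}
    (E : Type) [Field E] [Algebra C E] (c : σ → E) (g : MvPolynomial σ C) :
    G8.Psi (C := C) E c (MvPolynomial.map (algebraMap C L) g) =
      1 ⊗ₜ[C] eval₂ (algebraMap C E) c g := by
  have key : (G8.Psi (C := C) (L := L) E c).comp
      (MvPolynomial.map (algebraMap C L)) =
      (Algebra.TensorProduct.includeRight : E →ₐ[C] L ⊗[C] E).toRingHom.comp
        (eval₂Hom (algebraMap C E) c) := by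
    refine MvPolynomial.ringHom_ext ?_ ?_
    · intro a
      simp only [RingHom.comp_apply, MvPolynomial.map_C, G8.Psi_C]
      simp only [coe_eval₂Hom, eval₂_C]
      change _ = (1 : L) ⊗ₜ[C] (algebraMap C E a)
      rw [Algebra.algebraMap_eq_smul_one, Algebra.algebraMap_eq_smul_one,
        TensorProduct.smul_tmul]
    · intro v
      simp only [RingHom.comp_apply, MvPolynomial.map_X, G8.Psi_X]
      simp only [coe_eval₂Hom, eval₂_X]
      rfl
  exact RingHom.congr_fun key g

theorem G8.delta_iterate {C L : Type} [Field C] [Field L] [Algebra C L] (D : Der L)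
    (E : Type) [Field E] [Algebra C E] (δ : Der (L ⊗[C] E))
    (hδ : ∀ (l : L) (e : E), δ (l ⊗ₜ[C] e) = D l ⊗ₜ[C] e) (i : ℕ) (l : L) (e : E) :
    (δ)^[i] (l ⊗ₜ[C] e) = (D)^[i] l ⊗ₜ[C] e := by
  induction i with
  | zero => simp
  | succ i ih =>
    rw [Function.iterate_succ_apply', ih, hδ, Function.iterate_succ_apply']

theorem G8.Psi_Phi {C L : Type} [Field C] [Field L] [Algebra C L]
    (D : Der L) {κ₀ : Type} [Fintype κ₀]
    (ω : Module.Basis κ₀ C L) {ι ι' : Type}
    (β : ι' → L) (u : MvPolynomial ((ι ⊕ ι') × ℕ) L)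
    (E : Type) [Field E] [Algebra C E] (δ : Der (L ⊗[C] E))
    (hδ : ∀ (l : L) (e : E), δ (l ⊗ₜ[C] e) = D l ⊗ₜ[C] e) (c : ι × κ₀ → E) :
    ev (Algebra.TensorProduct.includeLeftRingHom : L →+* L ⊗[C] E) δ
      (Sum.elim (fun j => ∑ k, ω k ⊗ₜ[C] c (j, k)) (fun l => β l ⊗ₜ[C] (1 : E))) u =
    G8.Psi (C := C) E c (G8.Phi D ω β u) := by
  have key : ev (Algebra.TensorProduct.includeLeftRingHom : L →+* L ⊗[C] E) δ
      (Sum.elim (fun j => ∑ k, ω k ⊗ₜ[C] c (j, k)) (fun l => β l ⊗ₜ[C] (1 : E))) =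
      (G8.Psi (C := C) E c).comp (G8.Phi D ω β) := by
    refine MvPolynomial.ringHom_ext ?_ ?_
    · intro a
      have h1 : G8.Phi (ι := ι) D ω β (MvPolynomial.C a) = MvPolynomial.C a := by
        rw [G8.Phi, eval₂Hom_C]
      rw [ev_C, RingHom.comp_apply, h1, G8.Psi_C]
      rfl
    · rintro ⟨v, i⟩
      have h1 : G8.Phi D ω β (X (v, i)) = G8.var D ω β (v, i) := by
        rw [G8.Phi, eval₂Hom_X']
      rw [ev_X, RingHom.comp_apply, h1, G8.var]
      rcases v with j | l
      · simp only [Sum.elim_inl]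
        rw [G1.iterate_sum, map_sum]
        refine Finset.sum_congr rfl fun k _ => ?_
        rw [G8.delta_iterate D E δ hδ, map_mul, G8.Psi_C, G8.Psi_X,
          Algebra.TensorProduct.tmul_mul_tmul, mul_one, one_mul]
      · simp only [Sum.elim_inr]
        rw [G8.delta_iterate D E δ hδ, G8.Psi_C]
  rw [key, RingHom.comp_apply]

theorem G8.var_deg {C L : Type} [Field C] [Field L] [Algebra C L] (D : Der L)
    {κ₀ : Type} [Fintype κ₀] (ω : Module.Basis κ₀ C L) {ι ι' : Type} (β : ι' → L)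
    (v : (ι ⊕ ι') × ℕ) : (G8.var D ω β v).totalDegree ≤ 1 := by
  obtain ⟨v, i⟩ := v
  rcases v with j | l
  · simp only [G8.var, Sum.elim_inl]
    refine MvPolynomial.totalDegree_finsetSum_le fun k _ => ?_
    refine (MvPolynomial.totalDegree_mul _ _).trans ?_
    rw [MvPolynomial.totalDegree_C, zero_add]
    exact (MvPolynomial.totalDegree_X _).le
  · simp only [G8.var, Sum.elim_inr]
    rw [MvPolynomial.totalDegree_C]
    exact Nat.zero_le _

theorem G8.high {C L : Type} [Field C] [Field L] [Algebra C L] (D : Der L)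
    {κ₀ : Type} [Fintype κ₀] (ω : Module.Basis κ₀ C L) {ι ι' : Type}
    (β : ι' → L) (u : MvPolynomial ((ι ⊕ ι') × ℕ) L) (e : ℕ) (hu : High (wa 0) (e + 1) u) :
    (G8.Phi D ω β u).totalDegree ≤ e := by
  rw [G8.Phi, coe_eval₂Hom, eval₂_eq]
  refine MvPolynomial.totalDegree_finsetSum_le fun d hd => ?_
  have hw := hu d hd
  have h1 : (∏ i ∈ d.support, G8.var D ω β i ^ d i).totalDegree ≤ ∑ i ∈ d.support, d i := by
    refine (MvPolynomial.totalDegree_finsetProd _ _).trans (Finset.sum_le_sum fun i _ => ?_)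
    refine (MvPolynomial.totalDegree_pow _ _).trans ?_
    have := Nat.mul_le_mul_left (d i) (G8.var_deg D ω β i)
    rwa [mul_one] at this
  have h2 : Finsupp.weight (wa 0) d = ∑ i ∈ d.support, d i := by
    rw [Finsupp.weight_apply, Finsupp.sum]
    refine Finset.sum_congr rfl fun i _ => ?_
    simp [wa]
  refine (MvPolynomial.totalDegree_mul _ _).trans ?_
  rw [MvPolynomial.totalDegree_C, zero_add]
  omega

theorem G8.exists_numeric {C L : Type} [Field C] [Field L] [Algebra C L]
    (D : Der L) (hD : ∀ c : C, D (algebraMap C L c) = 0) {κ₀ : Type} [Fintype κ₀]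
    (ω : Module.Basis κ₀ C L) {ι ι' : Type} [Fintype ι] [Fintype ι']
    (β : ι' → L) (u : MvPolynomial ((ι ⊕ ι') × ℕ) L) :
    ∃ g : κ₀ → MvPolynomial (ι × κ₀) C,
      (∀ (E : Type) [Field E] [Algebra C E] (δ : Der (L ⊗[C] E)),
        (∀ (l : L) (e : E), δ (l ⊗ₜ[C] e) = D l ⊗ₜ[C] e) → ∀ c : ι × κ₀ → E,
          ev (Algebra.TensorProduct.includeLeftRingHom : L →+* L ⊗[C] E) δ
            (Sum.elim (fun j => ∑ k, ω k ⊗ₜ[C] c (j, k)) (fun l => β l ⊗ₜ[C] (1 : E))) u =
          ∑ k, ω k ⊗ₜ[C] eval₂ (algebraMap C E) c (g k)) ∧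
      (∀ e : ℕ, High (wa 0) (e + 1) u → ∀ k, (g k).totalDegree ≤ e) := by
  obtain ⟨g, hg⟩ := G8.exists_coord ω (G8.Phi D ω β u)
  refine ⟨g, ?_, ?_⟩
  · intro E _ _ δ hδ c
    rw [G8.Psi_Phi D ω β u E δ hδ c, hg, map_sum]
    refine Finset.sum_congr rfl fun k _ => ?_
    rw [map_mul, G8.Psi_C, G8.Psi_map, Algebra.TensorProduct.tmul_mul_tmul, mul_one, one_mul]
  · intro e hu k
    have hdeg := G8.high D ω β u e hu
    refine Finset.sup_le fun γ hγ => ?_
    by_contra hcon
    have h0 : coeff γ (G8.Phi D ω β u) = 0 := by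
      refine MvPolynomial.coeff_eq_zero_of_totalDegree_lt (lt_of_le_of_lt hdeg ?_)
      rw [not_le] at hcon
      exact hcon
    rw [hg, coeff_sum] at h0
    have h1 : ∑ k, coeff γ (g k) • ω k = 0 := by
      rw [← h0]
      refine Finset.sum_congr rfl fun k _ => ?_
      rw [MvPolynomial.coeff_C_mul, MvPolynomial.coeff_map, Algebra.smul_def, mul_comm]
    have h2 := Fintype.linearIndependent_iff.1 ω.linearIndependent _ h1 k
    exact (MvPolynomial.mem_support_iff.1 hγ) h2

end Pool.Agent.Helper62.DG
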