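import Mathlib
import Pool.Agent.Helper21.PD.P3
import Pool.Agent.Helper21.PD.P4
import Pool.Agent.Helper62.DL.St.N4

/-!
PROJECT DG, piece N8 (about 120 lines). Numeric systems whose equations have degree at most `e_v`, `p ∤ e_v`,
over a separably closed field `C` of characteristic `p`: there is a solution in `C`, or an arc at infinity of
the family `τ c_v^(e_v) + G_v(c) = 0`.

Proof. Let `F = C(τ) = RatFunc C`, `h_v = - τ⁻¹ G_v` (coefficients mapped to `F`). With `ν` the valuation at
infinity (`FunctionField.inftyValuation`, `inftyValuation.X_inv`, constants have value `≤ 1`) the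
coefficients of `h_v` have value `< 1`, so `P3.finrank_quotient` (see the file `PD/P3.lean`) gives that
`A = F[X]/(X_v^(e_v) - h_v)` has dimension `∏ e_v`, not divisible by `p`. `P4.exists_maximal` gives a maximal
ideal of `A` with residue field `E`, `p ∤ [E : F]`. The trace of `1 ∈ E` is `[E : F] ≠ 0` in `C`, a nonzero
constant, so its `P0`-valuation is `1` and `N4.exists_place` with `ε = 1`, `b = 0` gives a place `w`
(`IsPlace`). Let `c_v ∈ E` be the class of `X_v`: `τ c_v^(e_v) + G_v(c) = 0`. If some `w (c_v) > 1` we are in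
the second case. Otherwise all `w (c_v) ≤ 1`; choose `γ_v ∈ C` with `w (c_v - γ_v) < 1` (`IsPlace.res`). Then
`w (G_v(c) - G_v(γ)) < 1` and `w (G_v(c)) = w (τ c_v^(e_v)) < 1`, so the constant `G_v(γ) ∈ C` has value `< 1`
and is zero (`IsPlace.const`).
-/

open MvPolynomial

namespace Pool.Agent.Helper62.DG

open Pool.Agent.Helper21.PD Pool.Agent.Helper62.DL

theorem N8.eval_near {C : Type} [Field C] {V : Type} {E : Type} [Field E] {f : Polynomial C →+* E}
    {w : Valuation E Γ₀} (hw : IsPlace f w) (c : V → E) (γ : V → C) (hc : ∀ v, w (c v) ≤ 1)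
    (hγ : ∀ v, w (c v - f (Polynomial.C (γ v))) < 1) (P : MvPolynomial V C) :
    w (eval₂ (f.comp Polynomial.C) c P - f (Polynomial.C (eval γ P))) < 1 := by
  have hle : ∀ a : C, w (f (Polynomial.C a)) ≤ 1 := by
    intro a
    by_cases ha : a = 0
    · rw [ha, map_zero, map_zero, map_zero]
      exact zero_le_one
    · exact (hw.const a ha).le
  induction P using MvPolynomial.induction_on with
  | C a =>
    rw [eval₂_C, eval_C, RingHom.comp_apply, sub_self, map_zero]
    exact zero_lt_one
  | add P Q hP hQ =>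
    have h1 : eval₂ (f.comp Polynomial.C) c (P + Q) - f (Polynomial.C (eval γ (P + Q))) =
        (eval₂ (f.comp Polynomial.C) c P - f (Polynomial.C (eval γ P))) +
          (eval₂ (f.comp Polynomial.C) c Q - f (Polynomial.C (eval γ Q))) := by
      rw [eval₂_add, map_add, map_add, map_add]
      ring
    rw [h1]
    exact Valuation.map_add_lt _ hP hQ
  | mul_X P v hP =>
    have h1 : eval₂ (f.comp Polynomial.C) c (P * X v) - f (Polynomial.C (eval γ (P * X v))) =
        (eval₂ (f.comp Polynomial.C) c P - f (Polynomial.C (eval γ P))) * c v +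
          f (Polynomial.C (eval γ P)) * (c v - f (Polynomial.C (γ v))) := by
      rw [eval₂_mul, eval₂_X, map_mul, eval_X, map_mul, map_mul]
      ring
    rw [h1]
    refine Valuation.map_add_lt _ ?_ ?_
    · rw [map_mul]
      exact mul_lt_one_of_lt_of_le hP (hc v)
    · rw [map_mul, mul_comm]
      exact mul_lt_one_of_lt_of_le (hγ v) (hle _)

theorem N8.exists_point_or_arc {C : Type} [Field C] [IsSepClosed C] {p : ℕ} [Fact p.Prime]
    [CharP C p] {V : Type} [Fintype V] (e : V → ℕ) (he : ∀ v, 0 < e v) (hep : ∀ v, ¬ p ∣ e v)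
    (G : V → MvPolynomial V C) (hG : ∀ v, (G v).totalDegree ≤ e v) :
    (∃ c : V → C, ∀ v, eval c (G v) = 0) ∨
    ∃ (E : Type) (_ : Field E) (f : Polynomial C →+* E) (w : Valuation E Γ₀) (c : V → E),
      IsPlace f w ∧ (∃ v, 1 < w (c v)) ∧
      ∀ v, f Polynomial.X * c v ^ e v + eval₂ (f.comp Polynomial.C) c (G v) = 0 := by
  classical
  set h : V → MvPolynomial V (RatFunc C) := fun v =>
    MvPolynomial.C (-(RatFunc.X)⁻¹) * MvPolynomial.map (RatFunc.C) (G v) with hh
  have hdeg : ∀ v, (h v).totalDegree ≤ e v := by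
    intro v
    refine (totalDegree_mul _ _).trans ?_
    rw [totalDegree_C, zero_add]
    refine le_trans ?_ (hG v)
    refine Finset.sup_mono ?_
    exact MvPolynomial.support_map_subset _ _
  have hcoef : ∀ v γ, RatFunc.inftyValuation C (coeff γ (h v)) < 1 := by
    intro v γ
    rw [hh]
    simp only
    rw [coeff_C_mul, coeff_map, map_mul, Valuation.map_neg]
    have h2 : RatFunc.inftyValuation C (RatFunc.X)⁻¹ < 1 := by
      rw [← one_div, RatFunc.inftyValuation.X_inv]
      exact WithZero.exp_lt_exp.2 (by norm_num)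
    have h3 : RatFunc.inftyValuation C (RatFunc.C (coeff γ (G v))) ≤ 1 := by
      by_cases h4 : coeff γ (G v) = 0
      · rw [h4, map_zero, map_zero]
        exact zero_le_one
      · exact (RatFunc.inftyValuation.C C h4).le
    exact mul_lt_one_of_lt_of_le h2 h3
  obtain ⟨hfd, hrk⟩ := finrank_quotient (RatFunc.inftyValuation C) e he h hdeg hcoef
  have hp : p.Prime := Fact.out
  have hnd : ¬ p ∣ ∏ v, e v := by
    rw [hp.prime.dvd_finsetProd_iff]
    rintro ⟨v, -, hv⟩
    exact hep v hv
  rw [← hrk] at hnd
  obtain ⟨I, hI, hIp⟩ := exists_maximal hnd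
  have key : ∀ (E : Type) [Field E] [Algebra (RatFunc C) E] (_ : FiniteDimensional (RatFunc C) E)
      (_ : ¬ p ∣ Module.finrank (RatFunc C) E) (c : V → E)
      (_ : ∀ v, c v ^ e v = aeval c (h v)),
      (∃ c : V → C, ∀ v, eval c (G v) = 0) ∨
      ∃ (E : Type) (_ : Field E) (f : Polynomial C →+* E) (w : Valuation E Γ₀) (c : V → E),
        IsPlace f w ∧ (∃ v, 1 < w (c v)) ∧
        ∀ v, f Polynomial.X * c v ^ e v + eval₂ (f.comp Polynomial.C) c (G v) = 0 := by
    intro E _ _ hfinE hrE c hc
    have htr : ¬ (P5.P0 C).valuation (RatFunc C) (Algebra.trace (RatFunc C) E 1) < 1 := by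
      have h1 : Algebra.trace (RatFunc C) E 1 =
          toRat C (Polynomial.C (Module.finrank (RatFunc C) E : C)) := by
        have h2 : Algebra.trace (RatFunc C) E (algebraMap (RatFunc C) E 1) =
          Module.finrank (RatFunc C) E • (1 : RatFunc C) := Algebra.trace_algebraMap 1
        rw [map_one] at h2
        rw [h2, nsmul_eq_mul, mul_one]
        simp
      rw [h1, IsDedekindDomain.HeightOneSpectrum.valuation_lt_one_iff_mem]
      intro h2
      have h3 : (Polynomial.X : Polynomial C) ∣ Polynomial.C (Module.finrank (RatFunc C) E : C) :=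
        Ideal.mem_span_singleton.1 h2
      rw [Polynomial.X_dvd_iff, Polynomial.coeff_C_zero] at h3
      exact hrE ((CharP.cast_eq_zero_iff C p _).1 h3)
    obtain ⟨w, hw, -, -⟩ := N4.exists_place (p := p) (E := E) 1 0 (RingHom.isIntegralElem_one _)
      (RingHom.isIntegralElem_zero _) (by ring) htr
    set f : Polynomial C →+* E := (algebraMap (RatFunc C) E).comp (toRat C) with hf
    have hfX : f Polynomial.X = algebraMap (RatFunc C) E RatFunc.X := by
      rw [hf, RingHom.comp_apply, RatFunc.algebraMap_X]
    have hfX0 : f Polynomial.X ≠ 0 := hw.ne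
    have hev : ∀ v, aeval c (h v) = -(f Polynomial.X)⁻¹ * eval₂ (f.comp Polynomial.C) c (G v) := by
      intro v
      rw [hh]
      simp only
      rw [map_mul, aeval_C, map_neg, map_inv₀, ← hfX]
      congr 1
      rw [aeval_def, eval₂_map]
      rfl
    have heq : ∀ v, f Polynomial.X * c v ^ e v + eval₂ (f.comp Polynomial.C) c (G v) = 0 := by
      intro v
      rw [hc v, hev v]
      field_simp
      ring
    by_cases hcase : ∃ v, 1 < w (c v)
    · exact Or.inr ⟨E, inferInstance, f, w, c, hw, hcase, heq⟩
    · left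
      push Not at hcase
      choose γ hγ using fun v => hw.res (c v) (hcase v)
      refine ⟨γ, fun v => ?_⟩
      by_contra hne
      have h1 := hw.const _ hne
      have h2 := N8.eval_near hw c γ hcase hγ (G v)
      have h3 : w (eval₂ (f.comp Polynomial.C) c (G v)) < 1 := by
        have h4 : eval₂ (f.comp Polynomial.C) c (G v) = -(f Polynomial.X * c v ^ e v) := by
          linear_combination heq v
        rw [h4, Valuation.map_neg, map_mul, map_pow]
        exact mul_lt_one_of_lt_of_le hw.lt (pow_le_one' (hcase v) _)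
      have h4 : f (Polynomial.C (eval γ (G v))) = eval₂ (f.comp Polynomial.C) c (G v) -
          (eval₂ (f.comp Polynomial.C) c (G v) - f (Polynomial.C (eval γ (G v)))) := by ring
      have h5 : w (f (Polynomial.C (eval γ (G v)))) < 1 := by
        rw [h4]
        exact Valuation.map_sub_lt w h3 h2
      exact h5.ne h1
  let _ : Field ((MvPolynomial V (RatFunc C) ⧸
    Ideal.span (Set.range fun m => X m ^ e m - h m)) ⧸ I) := Ideal.Quotient.field I
  refine key ((MvPolynomial V (RatFunc C) ⧸
    Ideal.span (Set.range fun m => X m ^ e m - h m)) ⧸ I) inferInstance hIp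
    (fun v => Ideal.Quotient.mk I (Ideal.Quotient.mk _ (X v))) fun v => ?_
  have h1 : Ideal.Quotient.mk I (Ideal.Quotient.mk
      (Ideal.span (Set.range fun m => X m ^ e m - h m)) (X v ^ e v - h v)) = 0 := by
    rw [Ideal.Quotient.eq_zero_iff_mem.2 (Ideal.subset_span (Set.mem_range_self v)), map_zero]
  rw [map_sub, map_sub, map_pow, map_pow, sub_eq_zero] at h1
  rw [h1]
  have h2 : ((Ideal.Quotient.mk I).comp (Ideal.Quotient.mk
      (Ideal.span (Set.range fun m => X m ^ e m - h m)))) =
      ((aeval (R := RatFunc C) (fun v => Ideal.Quotient.mk I (Ideal.Quotient.mk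
        (Ideal.span (Set.range fun m => X m ^ e m - h m)) (X v)))) :
        MvPolynomial V (RatFunc C) →ₐ[RatFunc C] _).toRingHom := by
    refine MvPolynomial.ringHom_ext ?_ ?_
    · intro a
      change _ = aeval _ (MvPolynomial.C a)
      rw [aeval_C]
      rfl
    · intro v
      change _ = aeval _ (X v)
      rw [aeval_X]
      rfl
  exact RingHom.congr_fun h2 (h v)

end Pool.Agent.Helper62.DG
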