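import Mathlib
import Pool.Agent.Helper62.DG.N8
import Pool.Agent.Helper62.DG.CI8
import Pool.Agent.Helper62.DG.G8
import Pool.Agent.Helper62.DL.St.S1
import Pool.Agent.Helper62.DL.St.S2
import Pool.Agent.Helper62.DL.St.S3

/-!
PROJECT DG, piece Core8 (about 200 lines; compare `DL/St/Core.lean`). The characteristic `p` theorem.

Proof. Basis `ω` of `L/C`, `V = ι × κ₀`, an equivalence `ε : ι ≃ σ`. G8 gives `g_{m,k}` for
`u_m = uh m + t m` (`High (wa 0) (e m + 1)`); `G_(j,k) = g_{ε j, k}`, `e_v = e (ε j)`, `p ∤ e_v`. Apply N8.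
Case 1: `c : V → C` with all `G_v(c) = 0`. Use `E = C`, `δ` from S1 with `t = 1`: all `u_m(x) = 0` in
`L ⊗[C] C`, so the right side of `hI1` evaluated at `x` is zero (`ev_dext_iterate`, compatibility
`δ (l ⊗ 1) = D l ⊗ 1`), while the left side is `(ev id D β R) ⊗ 1 ≠ 0` (`ev .. x (par R)` is the image of
`ev id D β R` under `L → L ⊗ C`, as `δ^k (β l ⊗ 1) = D^k (β l) ⊗ 1`). Contradiction.
Case 2: an arc at infinity, `E` a `C`-algebra by `f ∘ Polynomial.C`, `W` from S2, `δ` from S1 with `t = 1`, so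
`W (δ x) ≤ w 1 ^ p * W x = W x` (S3). `μ = max_v w (c_v)^p > 1`; `W (x_j) ≤ μ`, `W (x_(inr l)) ≤ 1`;
`u_m(x) = ∑_k ω_k ⊗ G_{m,k}(c) = - ∑_k ω_k ⊗ τ c_v^(e_v)`, so `W (u_m(x)) ≤ μ^(e_m) ρ` with
`ρ = w τ ^ p < 1`. CI8 gives `W (x_j) < μ` for all `j`, but `w (c_v)^p ≤ W (x_j)` (c1). Contradiction.
-/

open TensorProduct MvPolynomial

namespace Pool.Agent.Helper62.DG

open Pool.Agent.Helper21.PD Pool.Agent.Helper62.DL

theorem Core8.high_add {υ R : Type*} [CommSemiring R] (W : υ → ℕ) (e : ℕ)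
    (f g : MvPolynomial υ R) (hf : f.IsWeightedHomogeneous W e) (hg : High W e g) :
    High W (e + 1) (f + g) := by
  classical
  intro γ hγ
  have h1 := MvPolynomial.support_add hγ
  rw [Finset.mem_union] at h1
  rcases h1 with h1 | h1
  · rw [MvPolynomial.mem_support_iff] at h1
    rw [hf h1]
    exact Nat.lt_succ_self _
  · exact (hg γ h1).trans (Nat.lt_succ_self _)

theorem Core8.ev_par {C L : Type} [Field C] [Field L] [Algebra C L] (D : Der L)
    (E : Type) [Field E] [Algebra C E] (δ : Der (L ⊗[C] E))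
    (hδ : ∀ (l : L) (e : E), δ (l ⊗ₜ[C] e) = D l ⊗ₜ[C] e) {ι ι' : Type}
    (y : ι → L ⊗[C] E) (β : ι' → L) (R : MvPolynomial (ι' × ℕ) L) :
    ev (Algebra.TensorProduct.includeLeftRingHom : L →+* L ⊗[C] E) δ
      (Sum.elim y (fun l => β l ⊗ₜ[C] (1 : E))) (par R) =
    (ev (RingHom.id L) D β R) ⊗ₜ[C] (1 : E) := by
  have key : (ev (Algebra.TensorProduct.includeLeftRingHom : L →+* L ⊗[C] E) δ
      (Sum.elim y (fun l => β l ⊗ₜ[C] (1 : E)))).comp
        (rename (fun v : ι' × ℕ => ((Sum.inr v.1 : ι ⊕ ι'), v.2))).toRingHom =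
      (Algebra.TensorProduct.includeLeftRingHom : L →+* L ⊗[C] E).comp
        (ev (RingHom.id L) D β) := by
    refine MvPolynomial.ringHom_ext ?_ ?_
    · intro a
      simp
    · rintro ⟨v, i⟩
      simp only [RingHom.comp_apply, AlgHom.toRingHom_eq_coe, RingHom.coe_coe, rename_X, ev_X,
        Sum.elim_inr]
      rw [G8.delta_iterate D E δ hδ]
      rfl
  exact RingHom.congr_fun key R

theorem Core8.no_identity {p : ℕ} [Fact p.Prime] {C L : Type} [Field C] [IsSepClosed C]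
    [CharP C p] [Field L] [Algebra C L] [Module.Finite C L]
    (hpC : ∀ a : L, ∃ c : C, algebraMap C L c = a ^ p)
    (D : Der L) (hD : ∀ c : C, D (algebraMap C L c) = 0)
    {ι ι' σ : Type} [Fintype ι] [Fintype ι'] [Fintype σ]
    (hcard : Fintype.card σ = Fintype.card ι) (e : σ → ℕ) (he : ∀ m, 0 < e m)
    (hep : ∀ m, e m < p) (uh t : σ → MvPolynomial ((ι ⊕ ι') × ℕ) L)
    (huh : ∀ m, (uh m).IsWeightedHomogeneous (wa 0) (e m))
    (ht : ∀ m, High (wa 0) (e m) (t m))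
    (N Mo : ℕ) (a : ι → σ → ℕ → MvPolynomial ((ι ⊕ ι') × ℕ) L)
    (b : ι → ι' → ℕ → MvPolynomial ((ι ⊕ ι') × ℕ) L)
    (ha : ∀ j m l, a j m l = 0 ∨ ∃ r, r + e m ≤ N ∧ High (wa 0) (r + 1) (a j m l))
    (hb : ∀ j l k, b j l k = 0 ∨ ∃ r, r + 1 ≤ N ∧ High (wa 0) (r + 1) (b j l k))
    (hid : ∀ j : ι, X (Sum.inl j, 0) ^ N =
      (∑ m, ∑ l ∈ Finset.range Mo, a j m l * (dext D)^[l] (uh m)) +
        ∑ l, ∑ k ∈ Finset.range Mo, b j l k * X (Sum.inr l, k))
    (R : MvPolynomial (ι' × ℕ) L) (β : ι' → L) (hβ : ev (RingHom.id L) D β R ≠ 0) (Mo' : ℕ)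
    (bb : σ → ℕ → MvPolynomial ((ι ⊕ ι') × ℕ) L)
    (hI1 : par R = ∑ m, ∑ l ∈ Finset.range Mo', bb m l * (dext D)^[l] (uh m + t m)) :
    False := by
  classical
  have hpp : p.Prime := Fact.out
  obtain ⟨n, ω⟩ : ∃ n : ℕ, Nonempty (Module.Basis (Fin n) C L) :=
    ⟨_, ⟨Module.finBasis C L⟩⟩
  obtain ⟨ω⟩ := ω
  have hG := fun m => G8.exists_numeric D hD ω β (uh m + t m)
  choose g hg hgdeg using hG
  let ε : ι ≃ σ := Fintype.equivOfCardEq hcard.symm
  have hdeg : ∀ m k, (g m k).totalDegree ≤ e m := fun m k =>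
    hgdeg m (e m) (Core8.high_add _ _ _ _ (huh m) (ht m)) k
  rcases N8.exists_point_or_arc (C := C) (p := p) (V := ι × Fin n) (fun v => e (ε v.1))
    (fun v => he _) (fun v hdvd => absurd (Nat.le_of_dvd (he _) hdvd) (not_le.2 (hep _)))
    (fun v => g (ε v.1) v.2) (fun v => hdeg _ _) with ⟨c, hc⟩ | ⟨E, _, f, w, c, hpl, ⟨v0, hv0⟩, heq⟩
  · obtain ⟨δ, hδ⟩ := S1.exists_der (E := C) D hD 1
    have hδ' : ∀ (l : L) (e : C), δ (l ⊗ₜ[C] e) = D l ⊗ₜ[C] e := by
      intro l e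
      rw [hδ, one_mul]
    have hzero : ∀ m, ev (Algebra.TensorProduct.includeLeftRingHom : L →+* L ⊗[C] C) δ
        (Sum.elim (fun j => ∑ k, ω k ⊗ₜ[C] c (j, k)) (fun l => β l ⊗ₜ[C] (1 : C)))
        (uh m + t m) = 0 := by
      intro m
      rw [hg m C δ hδ' c]
      refine Finset.sum_eq_zero fun k _ => ?_
      have h1 := hc (ε.symm m, k)
      simp only [Equiv.apply_symm_apply] at h1
      have h2 : eval₂ (algebraMap C C) c (g m k) = eval c (g m k) := rfl
      rw [h2, h1, TensorProduct.tmul_zero]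
    have h1 := congrArg (ev (Algebra.TensorProduct.includeLeftRingHom : L →+* L ⊗[C] C) δ
      (Sum.elim (fun j => ∑ k, ω k ⊗ₜ[C] c (j, k)) (fun l => β l ⊗ₜ[C] (1 : C)))) hI1
    rw [Core8.ev_par D C δ hδ', map_sum] at h1
    have h2 : (ev (RingHom.id L) D β R) ⊗ₜ[C] (1 : C) = 0 := by
      rw [h1]
      refine Finset.sum_eq_zero fun m _ => ?_
      rw [map_sum]
      refine Finset.sum_eq_zero fun l _ => ?_
      rw [map_mul, ev_dext_iterate _ _ _ D (fun a => (hδ' a 1).symm), hzero, Der.iterate_zero,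
        mul_zero]
    have h3 := congrArg (Algebra.TensorProduct.rid C C L) h2
    rw [Algebra.TensorProduct.rid_tmul, map_zero, one_smul] at h3
    exact hβ h3
  · letI : Algebra C E := (f.comp Polynomial.C).toAlgebra
    have hwc : ∀ a : C, a ≠ 0 → w (algebraMap C E a) = 1 := fun a ha => hpl.const a ha
    obtain ⟨W, hW1, hW2, hW3, hW4⟩ := S2.exists_valuation (E := E) hpC w hwc
      (fun y hy => hpl.res y hy) ω
    obtain ⟨δ, hδ⟩ := S1.exists_der (E := E) D hD 1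
    have hδ' : ∀ (l : L) (e : E), δ (l ⊗ₜ[C] e) = D l ⊗ₜ[C] e := by
      intro l e
      rw [hδ, one_mul]
    have hWδ : ∀ x, W (δ x) ≤ W x := by
      intro x
      have h1 := S3.der_le w hwc ω D 1 δ hδ W hW3 hW4 x
      rwa [map_one, one_pow, one_mul] at h1
    haveI : Nonempty (ι × Fin n) := ⟨v0⟩
    obtain ⟨v1, hv1⟩ := Finite.exists_max (fun v => w (c v))
    have hle : ∀ v, w (c v) ^ p ≤ w (c v1) ^ p := fun v =>
      pow_le_pow_left₀ zero_le (hv1 v) p
    have hμ : 1 < w (c v1) ^ p :=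
      lt_of_lt_of_le (one_lt_pow₀ hv0 hpp.ne_zero) (hle v0)
    have hρ : w (f Polynomial.X) ^ p < 1 := pow_lt_one₀ zero_le hpl.lt hpp.ne_zero
    have hl1 : ∀ l : L, W (l ⊗ₜ[C] (1 : E)) ≤ 1 := by
      intro l
      by_cases hl : l = 0
      · rw [hl, TensorProduct.zero_tmul, map_zero]
        exact zero_le
      · exact (hW1 l hl).le
    have hcon := CI8.core_ineq D (Algebra.TensorProduct.includeLeftRingHom : L →+* L ⊗[C] E) δ
      (fun a => (hδ' a 1).symm) W hl1 (w (c v1) ^ p) (w (f Polynomial.X) ^ p) hμ hρ hWδ e he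
      uh t ht N Mo a b ha hb hid
      (Sum.elim (fun j => ∑ k, ω k ⊗ₜ[C] c (j, k)) (fun l => β l ⊗ₜ[C] (1 : E)))
      (fun j => hW4 (fun k => c (j, k)) _ (fun k => hle (j, k)))
      (fun l => hl1 (β l)) ?_ v1.1
    · have h3 := hW3 (fun k => c (v1.1, k)) v1.2
      exact absurd hcon (not_lt.2 h3)
    · intro m
      rw [hg m E δ hδ' c]
      refine hW4 (fun k => eval₂ (algebraMap C E) c (g m k)) _ (fun k => ?_)
      have h1 := heq (ε.symm m, k)
      simp only [Equiv.apply_symm_apply] at h1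
      have h2 : eval₂ (algebraMap C E) c (g m k) =
          -(f Polynomial.X * c (ε.symm m, k) ^ e m) := (neg_eq_of_add_eq_zero_right h1).symm
      change w (eval₂ (algebraMap C E) c (g m k)) ^ p ≤ _
      rw [h2, Valuation.map_neg, map_mul, map_pow, mul_pow, ← pow_mul, mul_comm (e m) p, pow_mul,
        mul_comm]
      exact mul_le_mul' (pow_le_pow_left₀ zero_le (hle _) _) le_rfl

end Pool.Agent.Helper62.DG
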