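import Mathlib
import Pool.Agent.Helper62.DG.Core8
import Pool.Agent.Helper62.DL.St.T5
import Pool.Agent.Helper62.DL.St.T6

/-!
PROJECT DG, piece Core08 (about 150 lines; compare `DL/St/Core0.lean`). `Core8.no_identity` in characteristic
zero, by transfer.

Proof. As for `Core0` (see its docstring and, when it is proved, its proof; here there are no conditions on
constants): coefficientwise lifts `P2.lift` of all polynomials to `A = MvPolynomial (K × ℕ) ℤ`; `Z` = the
coefficients of `X^N - ∑ lift a * (dext (dext dZ))^l (lift uh) - ∑ lift b * X` for all `j ∈ ι` and of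
`par (lift R) - ∑ lift bb * (dext (dext dZ))^l (lift uh + lift t)`;
`y = ev id (dext dZ) (X (β l, 0))_l (lift R)`. T5 with `N = ∑ e m` gives `p, L, D, φ`; apply
`Core8.no_identity` with `C = (frobenius L p).fieldRange` (T6; `D (a^p) = 0`) to the images under
`MvPolynomial.map φ` (supports do not grow, so weighted homogeneity and `High` are preserved).
-/

open MvPolynomial

namespace Pool.Agent.Helper62.DG

open Pool.Agent.Helper21.PD Pool.Agent.Helper62.DL

/-- evaluation commutes with differential homomorphisms -/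
theorem Core08.map_ev {R R' : Type} [CommRing R] [CommRing R'] {ι : Type} (ψ : R →+* R')
    (d : Der R) (d' : Der R') (h : ∀ a, ψ (d a) = d' (ψ a)) (x : ι → R)
    (f : MvPolynomial (ι × ℕ) R) :
    ψ (ev (RingHom.id R) d x f) =
      ev (RingHom.id R') d' (fun i => ψ (x i)) (MvPolynomial.map ψ f) := by
  have hk : ∀ (k : ℕ) (a : R), ψ ((d)^[k] a) = (d')^[k] (ψ a) := by
    intro k
    induction k with
    | zero => intro a; rfl
    | succ k ih => intro a; rw [Function.iterate_succ_apply, ih, h, Function.iterate_succ_apply]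
  have : ψ.comp (ev (RingHom.id R) d x) =
      (ev (RingHom.id R') d' (fun i => ψ (x i))).comp (MvPolynomial.map ψ) := by
    refine MvPolynomial.ringHom_ext ?_ ?_
    · intro a
      simp
    · intro v
      simp [hk]
  exact RingHom.congr_fun this f

theorem Core08.mem_support_map {R : Type} [CommRing R] {ι : Type} (f : MvPolynomial (ι × ℕ) R)
    {L : Type} [CommRing L] (φ : MvPolynomial (R × ℕ) ℤ →+* L) {γ : ι × ℕ →₀ ℕ}
    (hγ : γ ∈ (MvPolynomial.map φ (P2.lift f)).support) : γ ∈ f.support :=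
  P2.support_lift f (support_map_subset φ _ hγ)

theorem Core08.high {R : Type} [CommRing R] {ι : Type} {f : MvPolynomial (ι × ℕ) R}
    {L : Type} [CommRing L] (φ : MvPolynomial (R × ℕ) ℤ →+* L) {W : ι × ℕ → ℕ} {r : ℕ}
    (hf : High W r f) : High W r (MvPolynomial.map φ (P2.lift f)) :=
  fun γ hγ => hf γ (Core08.mem_support_map f φ hγ)

theorem Core08.hom {R : Type} [CommRing R] {ι : Type} {f : MvPolynomial (ι × ℕ) R}
    {L : Type} [CommRing L] (φ : MvPolynomial (R × ℕ) ℤ →+* L) {W : ι × ℕ → ℕ} {r : ℕ}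
    (hf : f.IsWeightedHomogeneous W r) :
    (MvPolynomial.map φ (P2.lift f)).IsWeightedHomogeneous W r :=
  fun {γ} hγ => hf (mem_support_iff.1 (Core08.mem_support_map f φ (mem_support_iff.2 hγ)))

theorem Core08.zero {R : Type} [CommRing R] {ι : Type} {f : MvPolynomial (ι × ℕ) R}
    {L : Type} [CommRing L] (φ : MvPolynomial (R × ℕ) ℤ →+* L) (hf : f = 0) :
    MvPolynomial.map φ (P2.lift f) = 0 := by
  ext γ
  rw [coeff_zero]
  by_contra h
  have := Core08.mem_support_map f φ (mem_support_iff.2 h)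
  rw [hf] at this
  simp at this

theorem Core08.no_identity {K : Type} [Field K] [CharZero K] (d : Der K)
    {ι ι' σ : Type} [Fintype ι] [Fintype ι'] [Fintype σ]
    (hcard : Fintype.card σ = Fintype.card ι) (e : σ → ℕ) (he : ∀ m, 0 < e m)
    (uh t : σ → MvPolynomial ((ι ⊕ ι') × ℕ) K)
    (huh : ∀ m, (uh m).IsWeightedHomogeneous (wa 0) (e m))
    (ht : ∀ m, High (wa 0) (e m) (t m))
    (N Mo : ℕ) (a : ι → σ → ℕ → MvPolynomial ((ι ⊕ ι') × ℕ) K)
    (b : ι → ι' → ℕ → MvPolynomial ((ι ⊕ ι') × ℕ) K)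
    (ha : ∀ j m l, a j m l = 0 ∨ ∃ r, r + e m ≤ N ∧ High (wa 0) (r + 1) (a j m l))
    (hb : ∀ j l k, b j l k = 0 ∨ ∃ r, r + 1 ≤ N ∧ High (wa 0) (r + 1) (b j l k))
    (hid : ∀ j : ι, X (Sum.inl j, 0) ^ N =
      (∑ m, ∑ l ∈ Finset.range Mo, a j m l * (dext d)^[l] (uh m)) +
        ∑ l, ∑ k ∈ Finset.range Mo, b j l k * X (Sum.inr l, k))
    (R : MvPolynomial (ι' × ℕ) K) (β : ι' → K) (hβ : ev (RingHom.id K) d β R ≠ 0) (Mo' : ℕ)
    (bb : σ → ℕ → MvPolynomial ((ι ⊕ ι') × ℕ) K)
    (hI1 : par R = ∑ m, ∑ l ∈ Finset.range Mo', bb m l * (dext d)^[l] (uh m + t m)) :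
    False := by
  classical
  -- the universal differential ring
  set DA : Der (MvPolynomial (K × ℕ) ℤ) := dext (ι := K) P2.dZ with hDA
  set ε : MvPolynomial (K × ℕ) ℤ →+* K := ev (Int.castRingHom K) d (id : K → K) with hε
  have hε0 : ∀ a : K, ε (X (a, 0)) = a := fun a => by
    rw [hε, ev_X]
    rfl
  have hεD : ∀ f, ε (DA f) = d (ε f) := fun f => by
    refine ev_dext _ _ _ P2.dZ (fun a => ?_) f
    change Int.castRingHom K 0 = _
    rw [map_zero, eq_intCast, Der.intCast]
  have hml : ∀ {κ : Type} (f : MvPolynomial (κ × ℕ) K), MvPolynomial.map ε (P2.lift f) = f :=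
    fun f => P2.map_lift ε hε0 f
  -- the lifted identities
  let F : ι → MvPolynomial ((ι ⊕ ι') × ℕ) (MvPolynomial (K × ℕ) ℤ) := fun j =>
    X (Sum.inl j, 0) ^ N -
      ((∑ m, ∑ l ∈ Finset.range Mo, P2.lift (a j m l) * (dext DA)^[l] (P2.lift (uh m))) +
        ∑ l, ∑ k ∈ Finset.range Mo, P2.lift (b j l k) * X (Sum.inr l, k))
  have hF : ∀ j, MvPolynomial.map ε (F j) = 0 := by
    intro j
    simp only [F, map_sub, map_add, map_mul, map_pow, map_sum, map_X, hml,
      map_dext_iterate ε DA d hεD]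
    rw [← hid j, sub_self]
  let G : MvPolynomial ((ι ⊕ ι') × ℕ) (MvPolynomial (K × ℕ) ℤ) :=
    par (P2.lift R) -
      ∑ m, ∑ l ∈ Finset.range Mo', P2.lift (bb m l) *
        (dext DA)^[l] (P2.lift (uh m) + P2.lift (t m))
  have hG : MvPolynomial.map ε G = 0 := by
    simp only [G, par, map_sub, map_mul, map_sum, MvPolynomial.map_rename, map_add, hml,
      map_dext_iterate ε DA d hεD]
    have h1 := hI1
    simp only [par] at h1
    rw [← h1, sub_self]
  -- the finite set of relations
  let Z : Finset (MvPolynomial (K × ℕ) ℤ) :=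
    (Finset.univ.biUnion fun j => (F j).support.image fun γ => coeff γ (F j)) ∪
      (G.support.image fun γ => coeff γ G)
  have hZ : ∀ z ∈ Z, ε z = 0 := by
    intro z hz
    rw [Finset.mem_union] at hz
    rcases hz with hz | hz
    · simp only [Finset.mem_biUnion, Finset.mem_univ, true_and, Finset.mem_image] at hz
      obtain ⟨j, γ, _, rfl⟩ := hz
      rw [← coeff_map, hF j, coeff_zero]
    · simp only [Finset.mem_image] at hz
      obtain ⟨γ, _, rfl⟩ := hz
      rw [← coeff_map, hG, coeff_zero]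
  let y : MvPolynomial (K × ℕ) ℤ := ev (RingHom.id _) DA (fun l => X (β l, 0)) (P2.lift R)
  have hy : ε y ≠ 0 := by
    have e2 : ε (ev (RingHom.id _) DA (fun l => X (β l, 0)) (P2.lift R)) =
        ev (RingHom.id K) d β R := by
      rw [Core08.map_ev ε DA d hεD, hml]
      simp only [hε0]
    simp only [y, e2]
    exact hβ
  obtain ⟨p, hp, L, _, _, _, D, φ, hNp, hfin, hφ, hφZ, hφy⟩ :=
    T5.exists_transfer d Z hZ y hy (∑ m, e m)
  have hφF : ∀ j, MvPolynomial.map φ (F j) = 0 := by
    intro j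
    ext γ
    rw [coeff_map, coeff_zero]
    by_cases hγ : γ ∈ (F j).support
    · refine hφZ _ ?_
      simp only [Z, Finset.mem_union, Finset.mem_biUnion, Finset.mem_univ, true_and,
        Finset.mem_image]
      exact Or.inl ⟨j, γ, hγ, rfl⟩
    · rw [notMem_support_iff.1 hγ, map_zero]
  have hφG : MvPolynomial.map φ G = 0 := by
    ext γ
    rw [coeff_map, coeff_zero]
    by_cases hγ : γ ∈ G.support
    · refine hφZ _ ?_
      simp only [Z, Finset.mem_union, Finset.mem_image]
      exact Or.inr ⟨γ, hγ, rfl⟩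
    · rw [notMem_support_iff.1 hγ, map_zero]
  simp only [y] at hφy
  have hsc : IsSepClosed (frobenius L p).fieldRange := T6.isSepClosed
  have hch : CharP (frobenius L p).fieldRange p :=
    (algebraMap (frobenius L p).fieldRange L).charP
      (algebraMap (frobenius L p).fieldRange L).injective p
  have hpC : ∀ a : L, ∃ c : (frobenius L p).fieldRange,
      algebraMap (frobenius L p).fieldRange L c = a ^ p := by
    intro a
    exact ⟨⟨frobenius L p a, ⟨a, rfl⟩⟩, rfl⟩
  have hD : ∀ c : (frobenius L p).fieldRange,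
      D (algebraMap (frobenius L p).fieldRange L c) = 0 := by
    rintro ⟨c, a, rfl⟩
    change D (a ^ p) = 0
    rw [D.pow, CharP.cast_eq_zero L p, zero_mul, zero_mul]
  -- the data over `L`
  refine Core8.no_identity (p := p) (C := (frobenius L p).fieldRange) hpC D hD hcard e he
    (fun m => lt_of_le_of_lt (Finset.single_le_sum (fun i _ => Nat.zero_le (e i))
      (Finset.mem_univ m)) hNp)
    (fun m => MvPolynomial.map φ (P2.lift (uh m))) (fun m => MvPolynomial.map φ (P2.lift (t m)))
    (fun m => Core08.hom φ (huh m)) (fun m => Core08.high φ (ht m)) N Mo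
    (fun j m l => MvPolynomial.map φ (P2.lift (a j m l)))
    (fun j l k => MvPolynomial.map φ (P2.lift (b j l k)))
    ?_ ?_ ?_ (MvPolynomial.map φ (P2.lift R))
    (fun l => φ (X (β l, 0))) ?_ Mo'
    (fun m l => MvPolynomial.map φ (P2.lift (bb m l)))
    ?_
  · intro j m l
    rcases ha j m l with h | ⟨r, h1, h2⟩
    · exact Or.inl (Core08.zero φ h)
    · exact Or.inr ⟨r, h1, Core08.high φ h2⟩
  · intro j l k
    rcases hb j l k with h | ⟨r, h1, h2⟩
    · exact Or.inl (Core08.zero φ h)
    · exact Or.inr ⟨r, h1, Core08.high φ h2⟩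
  · intro j
    have h1 := hφF j
    simp only [F, map_sub, map_add, map_mul, map_pow, map_sum, map_X,
      map_dext_iterate φ DA D hφ] at h1
    exact sub_eq_zero.1 h1
  · rw [Core08.map_ev φ DA D hφ] at hφy
    exact hφy
  · have h1 := hφG
    simp only [G, par, map_sub, map_mul, map_sum, MvPolynomial.map_rename, map_add,
      map_dext_iterate φ DA D hφ] at h1
    simp only [par]
    exact sub_eq_zero.1 h1

end Pool.Agent.Helper62.DG
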