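import Mathlib
import Pool.Agent.Helper62.DL.St.Z1
import Pool.Agent.Helper62.DG.Defs

/-!
PROJECT DG, piece Z8 (about 150 lines, copy of `DL/St/Z1.lean` for `α = 0` with upper bounds instead of lower
bounds). Homogeneous identities.

Proof. As in Z1 (`DL/St/Z1.lean`, proved): take a common `N`, write `X^N = ∑ a' D^l û_m + ∑ b' X` and take
homogeneous components of degree `N`: `a j m l = component (N - e m) of a'` if `e m ≤ N`, `0` otherwise;
`b j l k = component (N - 1) of b'` if `1 ≤ N`, `0` otherwise. A homogeneous polynomial of weight `r` is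
`High (wa 0) (r + 1)`.
-/

open MvPolynomial

namespace Pool.Agent.Helper62.DG

open Pool.Agent.Helper21.PD Pool.Agent.Helper62.DL

theorem Z8.high_add {υ R : Type*} [CommSemiring R] {W : υ → ℕ} {e : ℕ} {f g : MvPolynomial υ R}
    (hf : High W e f) (hg : High W e g) : High W e (f + g) := by
  classical
  intro γ hγ
  rcases Finset.mem_union.mp (MvPolynomial.support_add hγ) with h | h
  · exact hf γ h
  · exact hg γ h

theorem Z8.comp_mul {υ R : Type*} [CommRing R] (W : υ → ℕ) {g : MvPolynomial υ R} {r : ℕ}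
    (hg : g.IsWeightedHomogeneous W r) (N : ℕ) (f : MvPolynomial υ R) :
    ∃ a : MvPolynomial υ R, (a = 0 ∨ (r ≤ N ∧ High W (N - r + 1) a)) ∧
      weightedHomogeneousComponent W N (f * g) = a * g := by
  classical
  induction f using MvPolynomial.induction_on' with
  | monomial γ c =>
    have h1 : (monomial γ c * g).IsWeightedHomogeneous W (Finsupp.weight W γ + r) :=
      (isWeightedHomogeneous_monomial W γ c rfl).mul hg
    by_cases hr : N = Finsupp.weight W γ + r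
    · refine ⟨monomial γ c, Or.inr ⟨by omega, ?_⟩, ?_⟩
      · intro γ' hγ'
        have h2 : γ' = γ := by
          have := MvPolynomial.support_monomial_subset hγ'
          exact Finset.mem_singleton.mp this
        rw [h2]
        omega
      · rw [hr]
        exact h1.weightedHomogeneousComponent_same
    · refine ⟨0, Or.inl rfl, ?_⟩
      rw [h1.weightedHomogeneousComponent_ne N hr, zero_mul]
  | add f1 f2 hf1 hf2 =>
    obtain ⟨a1, h1, h2⟩ := hf1
    obtain ⟨a2, h3, h4⟩ := hf2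
    refine ⟨a1 + a2, ?_, ?_⟩
    · rcases h1 with h1 | h1
      · rcases h3 with h3 | h3
        · left
          rw [h1, h3, add_zero]
        · right
          rw [h1, zero_add]
          exact h3
      · rcases h3 with h3 | h3
        · right
          rw [h3, add_zero]
          exact h1
        · right
          exact ⟨h1.1, Z8.high_add h1.2 h3.2⟩
    · rw [add_mul, map_add, h2, h4, add_mul]

theorem Z8.side {υ R τ : Type*} [CommRing R] [Fintype τ] (W : υ → ℕ)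
    (g : τ × ℕ → MvPolynomial υ R) (e0 : τ × ℕ → ℕ)
    (hg : ∀ t, (g t).IsWeightedHomogeneous W (e0 t)) (N : ℕ) {y : MvPolynomial υ R}
    (hy : y ∈ Ideal.span (Set.range g)) :
    ∃ M0 : ℕ, ∃ a : τ → ℕ → MvPolynomial υ R,
      (∀ m l, a m l = 0 ∨ (e0 (m, l) ≤ N ∧ High W (N - e0 (m, l) + 1) (a m l))) ∧
      ∀ Mo, M0 ≤ Mo → weightedHomogeneousComponent W N y =
        ∑ m, ∑ l ∈ Finset.range Mo, a m l * g (m, l) := by
  classical
  obtain ⟨c, hc⟩ := (Finsupp.mem_span_range_iff_exists_finsupp).mp hy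
  choose A hA1 hA2 using fun t : τ × ℕ => Z8.comp_mul W (hg t) N (c t)
  refine ⟨c.support.sup (fun t => t.2 + 1), fun m l => A (m, l), fun m l => hA1 (m, l), ?_⟩
  intro Mo hMo
  have h1 : c.support ⊆ (Finset.univ : Finset τ) ×ˢ Finset.range Mo := by
    intro t ht
    refine Finset.mem_product.mpr ⟨Finset.mem_univ _, Finset.mem_range.mpr ?_⟩
    have h2 : t.2 + 1 ≤ c.support.sup (fun t => t.2 + 1) :=
      Finset.le_sup (f := fun t : τ × ℕ => t.2 + 1) ht
    omega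
  rw [← hc, Finsupp.sum, map_sum, Finset.sum_subset h1 ?_, Finset.sum_product]
  · refine Finset.sum_congr rfl fun m _ => Finset.sum_congr rfl fun l _ => ?_
    rw [smul_eq_mul, hA2 (m, l)]
  · intro t _ ht
    rw [Finsupp.notMem_support_iff.mp ht, zero_smul, map_zero]

theorem Z8.exists_identity {K : Type} [Field K] (d : Der K) {ι ι' σ : Type} [Fintype ι]
    [Fintype ι'] [Fintype σ] (e : σ → ℕ) (uh : σ → MvPolynomial ((ι ⊕ ι') × ℕ) K)
    (huh : ∀ m, (uh m).IsWeightedHomogeneous (wa 0) (e m))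
    (hfin : ∀ j : ι, ∃ N : ℕ, X (Sum.inl j, 0) ^ N ∈ diffIdeal d uh ⊔
      Ideal.span (Set.range fun v : ι' × ℕ =>
        (X ((Sum.inr v.1 : ι ⊕ ι'), v.2) : MvPolynomial ((ι ⊕ ι') × ℕ) K))) :
    ∃ (N Mo : ℕ) (a : ι → σ → ℕ → MvPolynomial ((ι ⊕ ι') × ℕ) K)
      (b : ι → ι' → ℕ → MvPolynomial ((ι ⊕ ι') × ℕ) K),
      (∀ j m l, a j m l = 0 ∨ ∃ r, r + e m ≤ N ∧ High (wa 0) (r + 1) (a j m l)) ∧
      (∀ j l k, b j l k = 0 ∨ ∃ r, r + 1 ≤ N ∧ High (wa 0) (r + 1) (b j l k)) ∧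
      ∀ j : ι, X (Sum.inl j, 0) ^ N =
        (∑ m, ∑ l ∈ Finset.range Mo, a j m l * (dext d)^[l] (uh m)) +
          ∑ l, ∑ k ∈ Finset.range Mo, b j l k * X (Sum.inr l, k) := by
  classical
  choose N0 hN0 using hfin
  set N : ℕ := Finset.univ.sup N0 with hN
  set g1 : σ × ℕ → MvPolynomial ((ι ⊕ ι') × ℕ) K := fun ml => (dext d)^[ml.2] (uh ml.1) with hg1
  set g2 : ι' × ℕ → MvPolynomial ((ι ⊕ ι') × ℕ) K :=
    fun v => X ((Sum.inr v.1 : ι ⊕ ι'), v.2) with hg2
  have hw1 : ∀ t : σ × ℕ, (g1 t).IsWeightedHomogeneous (wa 0) (e t.1 + 0 * t.2) :=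
    fun t => Z1.dext_iterate (Or.inl rfl) (huh t.1) t.2
  have hw2 : ∀ t : ι' × ℕ, (g2 t).IsWeightedHomogeneous (wa 0) (1 + 0 * t.2) :=
    fun t => isWeightedHomogeneous_X K _ _
  have hmem : ∀ j : ι, (X (Sum.inl j, 0) : MvPolynomial ((ι ⊕ ι') × ℕ) K) ^ N ∈
      Ideal.span (Set.range g1) ⊔ Ideal.span (Set.range g2) := by
    intro j
    have h1 : N0 j ≤ N := Finset.le_sup (Finset.mem_univ j)
    have h2 : (X (Sum.inl j, 0) : MvPolynomial ((ι ⊕ ι') × ℕ) K) ^ N =
        X (Sum.inl j, 0) ^ (N - N0 j) * X (Sum.inl j, 0) ^ N0 j := by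
      rw [← pow_add, Nat.sub_add_cancel h1]
    rw [h2]
    exact Ideal.mul_mem_left _ _ (hN0 j)
  have hsplit : ∀ j : ι, ∃ M0 : ℕ, ∃ (a : σ → ℕ → MvPolynomial ((ι ⊕ ι') × ℕ) K)
      (b : ι' → ℕ → MvPolynomial ((ι ⊕ ι') × ℕ) K),
      (∀ m l, a m l = 0 ∨ (e m + 0 * l ≤ N ∧
        High (wa 0) (N - (e m + 0 * l) + 1) (a m l))) ∧
      (∀ l k, b l k = 0 ∨ (1 + 0 * k ≤ N ∧ High (wa 0) (N - (1 + 0 * k) + 1) (b l k))) ∧
      ∀ Mo, M0 ≤ Mo → (X (Sum.inl j, 0) : MvPolynomial ((ι ⊕ ι') × ℕ) K) ^ N =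
        (∑ m, ∑ l ∈ Finset.range Mo, a m l * (dext d)^[l] (uh m)) +
          ∑ l, ∑ k ∈ Finset.range Mo, b l k * X (Sum.inr l, k) := by
    intro j
    obtain ⟨y, hy, z, hz, hyz⟩ := Submodule.mem_sup.mp (hmem j)
    obtain ⟨M1, a, ha, ha'⟩ := Z8.side (wa 0) g1 _ hw1 N hy
    obtain ⟨M2, b, hb, hb'⟩ := Z8.side (wa 0) g2 _ hw2 N hz
    refine ⟨max M1 M2, a, b, ha, hb, fun Mo hMo => ?_⟩
    have h1 : (X (Sum.inl j, 0) : MvPolynomial ((ι ⊕ ι') × ℕ) K).IsWeightedHomogeneous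
        (wa 0) 1 := by
      have h0 := isWeightedHomogeneous_X K (wa (ι := ι ⊕ ι') 0) (Sum.inl j, 0)
      have h00 : wa (ι := ι ⊕ ι') 0 (Sum.inl j, 0) = 1 := by simp [wa]
      rwa [h00] at h0
    have h2 : ((X (Sum.inl j, 0) : MvPolynomial ((ι ⊕ ι') × ℕ) K) ^ N).IsWeightedHomogeneous
        (wa 0) N := by
      have h0 := h1.pow N
      rwa [smul_eq_mul, mul_one] at h0
    have h3 := h2.weightedHomogeneousComponent_same
    rw [← hyz, map_add, ha' Mo (le_trans (le_max_left _ _) hMo),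
      hb' Mo (le_trans (le_max_right _ _) hMo), hyz] at h3
    exact h3.symm
  choose M0 a b ha hb hab using hsplit
  refine ⟨N, Finset.univ.sup M0, a, b, ?_, ?_, ?_⟩
  · intro j m l
    rcases ha j m l with h | h
    · exact Or.inl h
    · exact Or.inr ⟨N - (e m + 0 * l), by omega, h.2⟩
  · intro j l k
    rcases hb j l k with h | h
    · exact Or.inl h
    · exact Or.inr ⟨N - (1 + 0 * k), by omega, h.2⟩
  · intro j
    exact hab j _ (Finset.le_sup (Finset.mem_univ j))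

end Pool.Agent.Helper62.DG
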