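import Mathlib
import Pool.Agent.Helper21.PD.P14
import Pool.Agent.Helper62.DL.St.C0
import Pool.Agent.Helper62.DG.Core08
import Pool.Agent.Helper62.DG.Z8

/-!
PROJECT DG, piece C08 (about 120 lines; compare `DL/St/C0.lean`). In characteristic zero no nonzero differential
polynomial in the parameters lies in `[u]`.

Proof. Suppose `par R ∈ [u]`, `u_m = uh m + t m`: this gives `hI1`. Z8 gives `N, Mo, a, b`. Let
`K₂ = FractionRing (MvPolynomial (ι' × ℕ) K)` with the derivation extending `dext d`
(`P14.exists_der_fractionRing`), `β_l` the class of `X (l, 0)`, `j : K → K₂`; `ev id d₂ β (map j R)` is the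
class of `R`, not zero. Apply `Core08.no_identity` over `K₂` to the images under `MvPolynomial.map j`
(supports do not grow; `map_dext_iterate`).
-/

open MvPolynomial

namespace Pool.Agent.Helper62.DG

open Pool.Agent.Helper21.PD Pool.Agent.Helper62.DL

theorem C08.map_high {υ R S : Type*} [CommRing R] [CommRing S] (j : R →+* S) (W : υ → ℕ) (e : ℕ)
    (f : MvPolynomial υ R) (h : High W e f) : High W e (MvPolynomial.map j f) := by
  classical
  intro γ hγ
  exact h γ (MvPolynomial.support_map_subset _ _ hγ)

theorem C08.not_mem {K : Type} [Field K] [CharZero K] (d : Der K)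
    {ι ι' σ : Type} [Fintype ι] [Fintype ι'] [Fintype σ]
    (hcard : Fintype.card σ = Fintype.card ι) (e : σ → ℕ) (he : ∀ m, 0 < e m)
    (uh t : σ → MvPolynomial ((ι ⊕ ι') × ℕ) K)
    (huh : ∀ m, (uh m).IsWeightedHomogeneous (wa 0) (e m))
    (ht : ∀ m, High (wa 0) (e m) (t m))
    (hfin : ∀ j : ι, ∃ N : ℕ, X (Sum.inl j, 0) ^ N ∈ diffIdeal d uh ⊔
      Ideal.span (Set.range fun v : ι' × ℕ =>
        (X ((Sum.inr v.1 : ι ⊕ ι'), v.2) : MvPolynomial ((ι ⊕ ι') × ℕ) K)))
    (R : MvPolynomial (ι' × ℕ) K) (hR : R ≠ 0) :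
    par R ∉ diffIdeal d (fun m => uh m + t m) := by
  classical
  intro hmem
  -- the universal field
  obtain ⟨d₂, hd₂⟩ := exists_der_fractionRing (dext (ι := ι') d)
  set K₂ : Type := FractionRing (MvPolynomial (ι' × ℕ) K) with hK₂
  set am : MvPolynomial (ι' × ℕ) K →+* K₂ := algebraMap (MvPolynomial (ι' × ℕ) K) K₂ with ham
  have haminj : Function.Injective am :=
    IsFractionRing.injective (MvPolynomial (ι' × ℕ) K) K₂
  set j : K →+* K₂ := am.comp C with hj
  have hjinj : Function.Injective j := haminj.comp (C_injective _ _)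
  have : CharZero K₂ := charZero_of_injective_ringHom hjinj
  have hcomp : ∀ a, j (d a) = d₂ (j a) := by
    intro a
    change am (C (d a)) = d₂ (am (C a))
    rw [ham, hd₂, dext_C]
  set β : ι' → K₂ := fun l => am (X (l, 0)) with hβdef
  have hiter : ∀ (k : ℕ) (f : MvPolynomial (ι' × ℕ) K),
      (d₂)^[k] (am f) = am ((dext (ι := ι') d)^[k] f) := by
    intro k
    induction k with
    | zero => intro f; rfl
    | succ k ih =>
      intro f
      rw [Function.iterate_succ_apply', ih, Function.iterate_succ_apply']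
      exact hd₂ _
  have hev : ∀ f : MvPolynomial (ι' × ℕ) K,
      ev (RingHom.id K₂) d₂ β (MvPolynomial.map j f) = am f := by
    have h : (ev (RingHom.id K₂) d₂ β).comp (MvPolynomial.map j) = am := by
      refine MvPolynomial.ringHom_ext ?_ ?_
      · intro a
        rw [RingHom.comp_apply, map_C, ev_C]
        rfl
      · intro v
        rw [RingHom.comp_apply, map_X, ev_X]
        change (d₂)^[v.2] (am (X (v.1, 0))) = am (X v)
        rw [hiter, C0.iter_X]
    intro f
    exact RingHom.congr_fun h f
  -- the identities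
  obtain ⟨N, Mo, a, b, ha, hb, hid⟩ := Z8.exists_identity d e uh huh hfin
  obtain ⟨Mo', bb, hbb⟩ := C0.mem_sum (fun m l => (dext d)^[l] (uh m + t m)) _ hmem
  refine Core08.no_identity d₂ hcard e he (fun m => MvPolynomial.map j (uh m))
    (fun m => MvPolynomial.map j (t m)) (fun m => C0.map_whomog j _ _ _ (huh m))
    (fun m => C08.map_high j _ _ _ (ht m)) N Mo
    (fun i m l => MvPolynomial.map j (a i m l)) (fun i l k => MvPolynomial.map j (b i l k))
    ?_ ?_ ?_ (MvPolynomial.map j R) β ?_ Mo' (fun m l => MvPolynomial.map j (bb m l)) ?_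
  · intro i m l
    rcases ha i m l with h | ⟨r, h1, h2⟩
    · left
      rw [h, map_zero]
    · exact Or.inr ⟨r, h1, C08.map_high j _ _ _ h2⟩
  · intro i l k
    rcases hb i l k with h | ⟨r, h1, h2⟩
    · left
      rw [h, map_zero]
    · exact Or.inr ⟨r, h1, C08.map_high j _ _ _ h2⟩
  · intro i
    have := congrArg (MvPolynomial.map j) (hid i)
    rw [map_pow, map_X, map_add, map_sum, map_sum] at this
    rw [this]
    congr 1
    · refine Finset.sum_congr rfl fun m _ => ?_
      rw [map_sum]
      refine Finset.sum_congr rfl fun l _ => ?_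
      rw [map_mul, map_dext_iterate j d d₂ hcomp]
    · refine Finset.sum_congr rfl fun l _ => ?_
      rw [map_sum]
      refine Finset.sum_congr rfl fun k _ => ?_
      rw [map_mul, map_X]
  · rw [hev]
    intro h
    exact hR (haminj (by rw [h, map_zero]))
  · have := congrArg (MvPolynomial.map j) hbb
    rw [map_sum] at this
    have hp : MvPolynomial.map j (par (ι := ι) R) =
        par (ι := ι) (MvPolynomial.map j R) := MvPolynomial.map_rename j _ _
    rw [hp] at this
    rw [this]
    refine Finset.sum_congr rfl fun m _ => ?_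
    rw [map_sum]
    refine Finset.sum_congr rfl fun l _ => ?_
    rw [map_mul, map_dext_iterate j d d₂ hcomp, map_add]

end Pool.Agent.Helper62.DG
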