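import Mathlib
import Pool.Agent.Helper62.DG.C0w8
import Pool.Agent.Helper62.DL.St.F1
import Pool.Agent.Helper21.PD.P11
import Pool.Agent.Helper21.PD.P15

/-!
PROJECT DG, piece F8 (about 200 lines; compare `DL/St/DTw.lean` and `DL/St/F1.lean`). A prime over the system
modulo which the `v_l` are differentially independent.

Proof. Apply `C0w8.not_mem` with `ι = Fin n`, `ι' = Fin (n - i)`, `σ = Fin i ⊕ Fin (n - i)`, weights
`Sum.elim w f`, `uh' (inl m) = rename inl (uh m)`, `uh' (inr l) = X (inr l, 0) - rename inl (v l)`,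
`t' (inl m) = rename inl (t m)`, `t' (inr l) = 0`, exactly as in F1 (`DL/St/F1.lean`, proved: the
verification of `hfin` etc. can be copied). So no `par R`, `R ≠ 0`, is in `diffIdeal d (uh' + t')`. The set of
all `par R`, `R ≠ 0`, is a submonoid; take a prime `Q' ≥ diffIdeal` disjoint from it
(`Ideal.exists_le_prime_disjoint`) and a minimal prime `P' ≤ Q'` over the ideal
(`Ideal.exists_minimalPrimes_le`); it is stable under `dext d` (`P11.minimalPrimes_differential`,
`P15.diffIdeal_stable`). `Q = P'.comap (rename inl)`.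
-/

open MvPolynomial

namespace Pool.Agent.Helper62.DG

open Pool.Agent.Helper21.PD Pool.Agent.Helper62.DL

theorem F8.rename_high {R : Type*} [CommRing R] {ι κ : Type} (W : κ → ℕ) (W' : ι → ℕ) (g : ι → κ)
    (hg : ∀ v, W (g v) = W' v) {p : MvPolynomial ι R} {m : ℕ}
    (hp : High W' m p) : High W m (rename g p) := by
  intro c hc
  rw [mem_support_iff] at hc
  obtain ⟨u, hu, hu'⟩ := coeff_rename_ne_zero _ _ _ hc
  rw [← hu, F1.weight_mapDomain]
  have : (fun v => W (g v)) = W' := funext hg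
  rw [this]
  exact hp u (mem_support_iff.2 hu')

theorem F8.exists_prime {L : Type} [Field L] [CharZero L] (d : Der L) {n i : ℕ} (hin : i ≤ n)
    (w : Fin n → ℕ) (hw : ∀ j, 0 < w j)
    (e : Fin i → ℕ) (he : ∀ m, 0 < e m) (uh t : Fin i → MvPolynomial (Fin n × ℕ) L)
    (huh : ∀ m, (uh m).IsWeightedHomogeneous (ww w 0) (e m))
    (ht : ∀ m, High (ww w 0) (e m) (t m))
    (f : Fin (n - i) → ℕ) (hf : ∀ l, 0 < f l) (v : Fin (n - i) → MvPolynomial (Fin n × ℕ) L)
    (hv : ∀ l, (v l).IsWeightedHomogeneous (ww w 0) (f l))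
    (hfin : ∀ j : Fin n, ∃ N : ℕ, X (j, 0) ^ N ∈ diffIdeal d (Sum.elim uh v)) :
    ∃ Q : Ideal (MvPolynomial (Fin n × ℕ) L), Q.IsPrime ∧ (∀ g ∈ Q, dext d g ∈ Q) ∧
      (∀ m, uh m + t m ∈ Q) ∧
      ∀ R : MvPolynomial (Fin (n - i) × ℕ) L,
        ev (C : L →+* MvPolynomial (Fin n × ℕ) L) (dext d) v R ∈ Q → R = 0 := by
  set ρ : MvPolynomial (Fin n × ℕ) L →ₐ[L] MvPolynomial ((Fin n ⊕ Fin (n - i)) × ℕ) L :=
    rename (fun v : Fin n × ℕ => ((Sum.inl v.1 : Fin n ⊕ Fin (n - i)), v.2)) with hρ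
  set uh' : Fin i ⊕ Fin (n - i) → MvPolynomial ((Fin n ⊕ Fin (n - i)) × ℕ) L :=
    Sum.elim (fun m => ρ (uh m)) (fun l => X (Sum.inr l, 0) - ρ (v l)) with huh'
  set t' : Fin i ⊕ Fin (n - i) → MvPolynomial ((Fin n ⊕ Fin (n - i)) × ℕ) L :=
    Sum.elim (fun m => ρ (t m)) (fun _ => 0) with ht'
  have hwt : ∀ x : Fin n × ℕ, ww (Sum.elim w f) 0 ((Sum.inl x.1 : Fin n ⊕ Fin (n - i)), x.2) =
      ww w 0 x := fun x => rfl
  have hkey : ∀ (l : Fin (n - i)) (k : ℕ),
      (dext d)^[k] (ρ (v l)) + (dext d)^[k] (uh' (Sum.inr l)) = X (Sum.inr l, k) := by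
    intro l k
    rw [← Der.iterate_add, huh']
    simp only [Sum.elim_inr]
    rw [add_sub_cancel, F1.dext_iterate_X]
  have hcomm : ∀ (k : ℕ) (p : MvPolynomial (Fin n × ℕ) L),
      ρ ((dext d)^[k] p) = (dext d)^[k] (ρ p) := fun k p =>
    F1.rename_dext_iterate d (Sum.inl : Fin n → Fin n ⊕ Fin (n - i)) k p
  have hnot : ∀ R : MvPolynomial (Fin (n - i) × ℕ) L, R ≠ 0 →
      (par R : MvPolynomial ((Fin n ⊕ Fin (n - i)) × ℕ) L) ∉
        diffIdeal d (fun m => uh' m + t' m) := C0w8.not_mem d (ι := Fin n) (ι' := Fin (n - i))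
    (σ := Fin i ⊕ Fin (n - i))
    (by rw [Fintype.card_sum, Fintype.card_fin, Fintype.card_fin, Fintype.card_fin]; omega)
    (Sum.elim w f) (by rintro (j | j); exacts [hw j, hf j]) (Sum.elim e f)
    (by rintro (j | j); exacts [he j, hf j]) uh' t'
    (by
      rintro (m | l)
      · exact F1.rename_homog _ _ _ hwt (huh m)
      · have h1 : (ρ (v l)).IsWeightedHomogeneous (ww (Sum.elim w f) 0) (f l) :=
          F1.rename_homog _ _ _ hwt (hv l)
        have h2 : (X ((Sum.inr l : Fin n ⊕ Fin (n - i)), 0) :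
            MvPolynomial ((Fin n ⊕ Fin (n - i)) × ℕ) L).IsWeightedHomogeneous
              (ww (Sum.elim w f) 0) (f l) := by
          have := isWeightedHomogeneous_X L (ww (Sum.elim w f) 0)
            ((Sum.inr l : Fin n ⊕ Fin (n - i)), 0)
          simpa [ww] using this
        exact (weightedHomogeneousSubmodule L (ww (Sum.elim w f) 0) (f l)).sub_mem h2 h1)
    (by
      rintro (m | l)
      · exact F8.rename_high _ _ _ hwt (ht m)
      · intro γ hγ
        simp [ht'] at hγ)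
    (by
      intro j
      obtain ⟨N, hN⟩ := hfin j
      refine ⟨N, ?_⟩
      have hle : (diffIdeal d (Sum.elim uh v)).map ρ.toRingHom ≤ diffIdeal d uh' ⊔
          Ideal.span (Set.range fun v : Fin (n - i) × ℕ =>
            (X ((Sum.inr v.1 : Fin n ⊕ Fin (n - i)), v.2) :
              MvPolynomial ((Fin n ⊕ Fin (n - i)) × ℕ) L)) := by
        rw [diffIdeal, Ideal.map_span, Ideal.span_le]
        rintro _ ⟨_, ⟨⟨m, l⟩, rfl⟩, rfl⟩
        rcases m with m | m
        · refine Ideal.mem_sup_left (Ideal.subset_span ⟨(Sum.inl m, l), ?_⟩)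
          exact (hcomm l (uh m)).symm
        · have e1 : ρ.toRingHom ((dext d)^[l] (Sum.elim uh v (Sum.inr m))) =
              X (Sum.inr m, l) - (dext d)^[l] (uh' (Sum.inr m)) := by
            rw [← hkey m l, add_sub_cancel_right]
            exact hcomm l (v m)
          change ρ.toRingHom ((dext d)^[l] (Sum.elim uh v (Sum.inr m))) ∈ _
          rw [e1]
          refine Ideal.sub_mem _ (Ideal.mem_sup_right (Ideal.subset_span ⟨(m, l), rfl⟩))
            (Ideal.mem_sup_left (Ideal.subset_span ⟨(Sum.inr m, l), rfl⟩))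
      have h1 := hle (Ideal.mem_map_of_mem ρ.toRingHom hN)
      have h2 : ρ.toRingHom (X (j, 0) ^ N) = X (Sum.inl j, 0) ^ N := by
        rw [map_pow]
        congr 1
        exact rename_X _ _
      rwa [h2] at h1)
  let S : Submonoid (MvPolynomial ((Fin n ⊕ Fin (n - i)) × ℕ) L) :=
    { carrier := {x | ∃ R : MvPolynomial (Fin (n - i) × ℕ) L, R ≠ 0 ∧ par R = x}
      mul_mem' := by
        rintro _ _ ⟨R, hR, rfl⟩ ⟨R', hR', rfl⟩
        exact ⟨R * R', mul_ne_zero hR hR', map_mul _ _ _⟩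
      one_mem' := ⟨1, one_ne_zero, map_one _⟩ }
  have hdis : Disjoint ((diffIdeal d (fun m => uh' m + t' m) :
      Ideal (MvPolynomial ((Fin n ⊕ Fin (n - i)) × ℕ) L)) :
      Set (MvPolynomial ((Fin n ⊕ Fin (n - i)) × ℕ) L))
      (S : Set (MvPolynomial ((Fin n ⊕ Fin (n - i)) × ℕ) L)) := by
    rw [Set.disjoint_left]
    rintro x hx ⟨R, hR, rfl⟩
    exact hnot R hR hx
  obtain ⟨Q', hQ'p, hQ'le, hQ'd⟩ := Ideal.exists_le_prime_disjoint _ S hdis
  obtain ⟨P, hP, hPQ'⟩ := Ideal.exists_minimalPrimes_le hQ'le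
  have hPpar : ∀ R : MvPolynomial (Fin (n - i) × ℕ) L,
      (par R : MvPolynomial ((Fin n ⊕ Fin (n - i)) × ℕ) L) ∈ P → R = 0 := by
    intro R hR
    by_contra hne
    exact Set.disjoint_left.1 hQ'd (hPQ' hR) ⟨R, hne, rfl⟩
  have hPprime : P.IsPrime := hP.1.1
  have hPle : diffIdeal d (fun m => uh' m + t' m) ≤ P := hP.1.2
  have hPd : ∀ g ∈ P, dext d g ∈ P :=
    minimalPrimes_differential (dext d) _ (P15.diffIdeal_stable d _) P hP
  have hgen : ∀ (m : Fin i ⊕ Fin (n - i)) (k : ℕ), (dext d)^[k] (uh' m + t' m) ∈ P := fun m k =>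
    hPle (Ideal.subset_span ⟨(m, k), rfl⟩)
  refine ⟨P.comap ρ.toRingHom, Ideal.comap_isPrime _ _, ?_, ?_, ?_⟩
  · intro g hg
    have h1 : ρ g ∈ P := hg
    have h2 : ρ (dext d g) = dext d (ρ g) := hcomm 1 g
    change ρ (dext d g) ∈ P
    rw [h2]
    exact hPd _ h1
  · intro m
    have h1 : ρ (uh m + t m) = uh' (Sum.inl m) + t' (Sum.inl m) := by
      rw [map_add]
      rfl
    change ρ (uh m + t m) ∈ P
    rw [h1]
    exact hgen (Sum.inl m) 0
  · intro R hR
    apply hPpar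
    have h1 : ρ (ev (C : L →+* MvPolynomial (Fin n × ℕ) L) (dext d) v R) ∈ P := hR
    have h2 : (((Ideal.Quotient.mk P).comp ρ.toRingHom).comp
        (ev (C : L →+* MvPolynomial (Fin n × ℕ) L) (dext d) v)) =
        (Ideal.Quotient.mk P).comp (rename (fun x : Fin (n - i) × ℕ =>
          ((Sum.inr x.1 : Fin n ⊕ Fin (n - i)), x.2)) :
            MvPolynomial (Fin (n - i) × ℕ) L →ₐ[L] _).toRingHom := by
      refine MvPolynomial.ringHom_ext ?_ ?_
      · intro a
        simp only [RingHom.comp_apply, ev_C]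
        congr 1
        change rename _ (C a) = rename _ (C a)
        rw [rename_C, rename_C]
      · intro x
        simp only [RingHom.comp_apply, ev_X]
        rw [Ideal.Quotient.eq]
        have e1 : ρ.toRingHom ((dext d)^[x.2] (v x.1)) = (dext d)^[x.2] (ρ (v x.1)) :=
          hcomm x.2 (v x.1)
        have e2 : (rename (fun x : Fin (n - i) × ℕ =>
          ((Sum.inr x.1 : Fin n ⊕ Fin (n - i)), x.2)) :
            MvPolynomial (Fin (n - i) × ℕ) L →ₐ[L] _).toRingHom (X x) =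
            X (Sum.inr x.1, x.2) := rename_X _ _
        have e3 : uh' (Sum.inr x.1) + t' (Sum.inr x.1) = uh' (Sum.inr x.1) := by
          rw [ht']
          simp
        have e4 := hgen (Sum.inr x.1) x.2
        rw [e3] at e4
        rw [e1, e2, ← hkey x.1 x.2, sub_add_cancel_left]
        exact P.neg_mem e4
    have h3 := RingHom.congr_fun h2 R
    simp only [RingHom.comp_apply] at h3
    have h4 : (Ideal.Quotient.mk P) (ρ.toRingHom
        (ev (C : L →+* MvPolynomial (Fin n × ℕ) L) (dext d) v R)) = 0 :=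
      Ideal.Quotient.eq_zero_iff_mem.2 h1
    rw [h4] at h3
    exact Ideal.Quotient.eq_zero_iff_mem.1 h3.symm

end Pool.Agent.Helper62.DG
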