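import Mathlib
import Pool.Agent.Helper62.DG.F8
import Pool.Agent.Helper62.DL.St.M1

/-!
PROJECT DG, piece F9 (about 150 lines; compare `DL/St/F2.lean`). The global dimension theorem for `Der`.

Proof. As in F2 with the base change `Θ = MvPolynomial.map κ : K{x} → L{x}` (no translation), which commutes
with the derivations (`map_dext`). F8 gives `Q`, with `t m = map κ (u m) - uh m`. `P₁ = Q.comap Θ` is prime and
contains `diffIdeal d u`; let `P ≤ P₁` be a minimal prime over `diffIdeal d u`. `P15.exists_field` (for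
`A = L{x}`, `dext dL`, `Q`) gives `L', D', π`; `F₀ = (π.comp C).fieldRange`, `x_j = π (X (j, 0))`,
`z_l = π (v l)`; M1 gives `J` as in F2, and if `g ∈ P` is supported on `J` then `π (map κ g) = 0`, so `g = 0`.
-/

open MvPolynomial

namespace Pool.Agent.Helper62.DG

open Pool.Agent.Helper21.PD Pool.Agent.Helper62.DL

theorem F9.dext_mem {L : Type} [Field L] (dL : Der L) {n m : ℕ}
    {f : MvPolynomial (Fin n × ℕ) L} (hf : f ∈ supported L {v : Fin n × ℕ | v.2 ≤ m}) :
    dext dL f ∈ supported L {v : Fin n × ℕ | v.2 ≤ m + 1} := by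
  have hle : supported L {v : Fin n × ℕ | v.2 ≤ m} ≤
      supported L {v : Fin n × ℕ | v.2 ≤ m + 1} :=
    supported_mono fun v hv => Nat.le_succ_of_le hv
  rw [supported_eq_adjoin_X] at hf
  induction hf using Algebra.adjoin_induction with
  | mem x hx =>
    obtain ⟨v, hv, rfl⟩ := hx
    rw [dext_X]
    exact X_mem_supported.2 (Nat.succ_le_succ hv)
  | algebraMap r =>
    rw [MvPolynomial.algebraMap_eq, dext_C]
    exact Subalgebra.algebraMap_mem _ (dL r)
  | add x y _ _ hx hy =>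
    rw [(dext dL).add]
    exact add_mem hx hy
  | mul x y hx' hy' hx hy =>
    rw [(dext dL).mul]
    rw [← supported_eq_adjoin_X] at hx' hy'
    exact add_mem (mul_mem (hle hx') hy) (mul_mem (hle hy') hx)

theorem F9.dext_iterate_mem {L : Type} [Field L] (dL : Der L) {n m : ℕ} (k : ℕ)
    {f : MvPolynomial (Fin n × ℕ) L} (hf : f ∈ supported L {v : Fin n × ℕ | v.2 ≤ m}) :
    (dext dL)^[k] f ∈ supported L {v : Fin n × ℕ | v.2 ≤ k + m} := by
  induction k with
  | zero =>
    rw [Nat.zero_add]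
    exact hf
  | succ k ih =>
    rw [Function.iterate_succ_apply']
    have h := F9.dext_mem dL ih
    have he : k + 1 + m = k + m + 1 := by omega
    rw [he]
    exact h

theorem F9.exists_component {K L : Type} [Field K] [CharZero K] [Field L] [CharZero L]
    (d : Der K) (dL : Der L) (κ : K →+* L) (hκ : ∀ a, κ (d a) = dL (κ a)) {n i : ℕ}
    (hin : i ≤ n) (u : Fin i → MvPolynomial (Fin n × ℕ) K) (w : Fin n → ℕ) (hw : ∀ j, 0 < w j)
    (e : Fin i → ℕ) (he : ∀ m, 0 < e m) (uh : Fin i → MvPolynomial (Fin n × ℕ) L)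
    (huh : ∀ m, (uh m).IsWeightedHomogeneous (ww w 0) (e m))
    (ht : ∀ m, High (ww w 0) (e m) (MvPolynomial.map κ (u m) - uh m))
    (f : Fin (n - i) → ℕ) (hf : ∀ l, 0 < f l) (v : Fin (n - i) → MvPolynomial (Fin n × ℕ) L)
    (hv : ∀ l, (v l).IsWeightedHomogeneous (ww w 0) (f l))
    (hfin : ∀ j : Fin n, ∃ N : ℕ, X (j, 0) ^ N ∈ diffIdeal dL (Sum.elim uh v)) :
    ∃ P ∈ (diffIdeal d u).minimalPrimes, ∃ J : Finset (Fin n), J.card = n - i ∧
      ∀ g ∈ supported K {v : Fin n × ℕ | v.1 ∈ J}, g ∈ P → g = 0 := by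
  classical
  set Θ : MvPolynomial (Fin n × ℕ) K →+* MvPolynomial (Fin n × ℕ) L :=
    MvPolynomial.map κ with hΘ
  have hXit : ∀ (j : Fin n) (k k' : ℕ),
      (dext dL)^[k] (X (j, k') : MvPolynomial (Fin n × ℕ) L) = X (j, k' + k) := by
    intro j k
    induction k with
    | zero => intro k'; rfl
    | succ k ih =>
      intro k'
      rw [Function.iterate_succ_apply, dext_X, ih]
      congr 2
      omega
  have hΘX : ∀ v : Fin n × ℕ, Θ (X v) = X v := fun v => by rw [hΘ, map_X]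
  have hΘC : ∀ a : K, Θ (C a) = C (κ a) := fun a => by rw [hΘ, map_C]
  have hΘdi : ∀ (l : ℕ) g, Θ ((dext d)^[l] g) = (dext dL)^[l] (Θ g) :=
    fun l g => map_dext_iterate κ d dL hκ l g
  obtain ⟨Q, hQp, hQd, hQu, hQind⟩ := F8.exists_prime dL hin w hw e he uh
    (fun m => Θ (u m) - uh m) huh ht f hf v hv hfin
  have hQdi : ∀ (l : ℕ) g, g ∈ Q → (dext dL)^[l] g ∈ Q := by
    intro l
    induction l with
    | zero => intro g hg; exact hg
    | succ l ih =>
      intro g hg
      rw [Function.iterate_succ_apply']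
      exact hQd _ (ih g hg)
  have hle : diffIdeal d u ≤ Q.comap Θ := by
    unfold diffIdeal
    rw [Ideal.span_le]
    rintro _ ⟨⟨m, l⟩, rfl⟩
    show Θ ((dext d)^[l] (u m)) ∈ Q
    rw [hΘdi]
    refine hQdi l _ ?_
    have := hQu m
    rwa [add_sub_cancel] at this
  have hP1 : (Q.comap Θ).IsPrime := Ideal.comap_isPrime Θ Q
  obtain ⟨P, hPmin, hPle⟩ := Ideal.exists_minimalPrimes_le hle
  refine ⟨P, hPmin, ?_⟩
  obtain ⟨L', _, D', π, hπD, hπ0⟩ := P15.exists_field (dext dL) Q hQp hQd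
  have hπDi : ∀ (k : ℕ) g, (D')^[k] (π g) = π ((dext dL)^[k] g) := by
    intro k
    induction k with
    | zero => intro g; rfl
    | succ k ih =>
      intro g
      rw [Function.iterate_succ_apply, hπD, ih, Function.iterate_succ_apply]
  have hCinj : Function.Injective (π.comp (C : L →+* MvPolynomial (Fin n × ℕ) L)) :=
    RingHom.injective _
  have : CharZero L' := charZero_of_injective_ringHom hCinj
  set F₀ : Subfield L' := (π.comp (C : L →+* MvPolynomial (Fin n × ℕ) L)).fieldRange with hF₀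
  have hF₀D : ∀ a ∈ F₀, D' a ∈ F₀ := by
    rintro a ha
    rw [hF₀, RingHom.mem_fieldRange] at ha ⊢
    obtain ⟨b, rfl⟩ := ha
    refine ⟨dL b, ?_⟩
    rw [RingHom.comp_apply, RingHom.comp_apply, hπD, dext_C]
  let φ : L →+* F₀ := (π.comp (C : L →+* MvPolynomial (Fin n × ℕ) L)).rangeRestrictField
  have hφ : ∀ a, ((φ a : F₀) : L') = π (C a) := fun a => rfl
  have hφsurj : Function.Surjective φ := by
    rintro ⟨a, ha⟩
    rw [hF₀, RingHom.mem_fieldRange] at ha
    obtain ⟨b, hb⟩ := ha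
    exact ⟨b, Subtype.ext hb⟩
  let x : Fin n → L' := fun j => π (X (j, 0))
  let z : Fin (n - i) → L' := fun l => π (v l)
  have hx : ∀ v : Fin n × ℕ, (D')^[v.2] (x v.1) = π (X v) := by
    intro v
    show (D')^[v.2] (π (X (v.1, 0))) = _
    rw [hπDi, hXit, Nat.zero_add]
  -- independence of the `z`
  have hind : AlgebraicIndependent F₀ (fun v : Fin (n - i) × ℕ => (D')^[v.2] (z v.1)) := by
    rw [algebraicIndependent_iff]
    intro p hp
    obtain ⟨R, rfl⟩ := MvPolynomial.map_surjective φ hφsurj p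
    have h1 : π.comp (ev (C : L →+* MvPolynomial (Fin n × ℕ) L) (dext dL) v) =
        ((aeval (R := F₀) (fun v : Fin (n - i) × ℕ => (D')^[v.2] (z v.1)) :
          MvPolynomial (Fin (n - i) × ℕ) F₀ →ₐ[F₀] L') : _ →+* L').comp
          (MvPolynomial.map φ) := by
      refine MvPolynomial.ringHom_ext ?_ ?_
      · intro a
        rw [RingHom.comp_apply, RingHom.comp_apply, ev_C, map_C, RingHom.coe_coe, aeval_C]
        rfl
      · intro w
        rw [RingHom.comp_apply, RingHom.comp_apply, ev_X, map_X, RingHom.coe_coe, aeval_X,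
          hπDi]
    have h2 := RingHom.congr_fun h1 R
    rw [RingHom.comp_apply, RingHom.comp_apply, RingHom.coe_coe, hp, hπ0] at h2
    rw [hQind R h2, map_zero]
  -- the orders
  obtain ⟨o, ho⟩ : ∃ o : ℕ, ∀ l, v l ∈ supported L {w : Fin n × ℕ | w.2 ≤ o} := by
    refine ⟨∑ l, ∑ w ∈ (v l).vars, w.2, fun l => ?_⟩
    rw [mem_supported]
    intro w hw
    have h1 : w.2 ≤ ∑ w ∈ (v l).vars, w.2 :=
      Finset.single_le_sum (f := fun w : Fin n × ℕ => w.2) (fun _ _ => Nat.zero_le _) hw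
    have h2 : ∑ w ∈ (v l).vars, w.2 ≤ ∑ l, ∑ w ∈ (v l).vars, w.2 :=
      Finset.single_le_sum (f := fun l => ∑ w ∈ (v l).vars, w.2)
        (fun _ _ => Nat.zero_le _) (Finset.mem_univ l)
    exact h1.trans h2
  have hsup : ∀ (N : ℕ) g, g ∈ supported L {w : Fin n × ℕ | w.2 ≤ N} →
      π g ∈ Subfield.closure ((F₀ : Set L') ∪
        (fun v : Fin n × ℕ => (D')^[v.2] (x v.1)) '' {v | v.2 ≤ N}) := by
    intro N g hg
    have hC : ∀ a : L, π (C a) ∈ Subfield.closure ((F₀ : Set L') ∪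
        (fun v : Fin n × ℕ => (D')^[v.2] (x v.1)) '' {v | v.2 ≤ N}) := by
      intro a
      refine Subfield.subset_closure (Or.inl ?_)
      exact (φ a).2
    rw [supported_eq_adjoin_X] at hg
    induction hg using Algebra.adjoin_induction with
    | mem y hy =>
      obtain ⟨w, hw, rfl⟩ := hy
      rw [← hx]
      exact Subfield.subset_closure (Or.inr ⟨w, hw, rfl⟩)
    | algebraMap r => exact hC r
    | add y y' _ _ hy hy' =>
      rw [map_add]
      exact add_mem hy hy'
    | mul y y' _ _ hy hy' =>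
      rw [map_mul]
      exact mul_mem hy hy'
  obtain ⟨J, hJ, hJind⟩ := M1.exists_indep D' F₀ hF₀D x z o (fun l k => by
    show (D')^[k] (π (v l)) ∈ _
    rw [hπDi]
    exact hsup (k + o) _ (F9.dext_iterate_mem dL k (ho l))) hind
  refine ⟨J, hJ, ?_⟩
  intro g hg hgP
  have h1 : π (Θ g) = 0 := (hπ0 _).2 (hPle hgP)
  rw [supported_eq_range_rename] at hg
  obtain ⟨g', rfl⟩ := hg
  have h2 : (π.comp Θ).comp (rename (Subtype.val :
        {v : Fin n × ℕ | v.1 ∈ J} → Fin n × ℕ) : MvPolynomial _ K →ₐ[K] _).toRingHom =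
      ((aeval (R := F₀) (fun v : ({v : Fin n × ℕ | v.1 ∈ J} : Set (Fin n × ℕ)) =>
          (D')^[v.1.2] (x v.1.1)) :
          MvPolynomial ({v : Fin n × ℕ | v.1 ∈ J} : Set (Fin n × ℕ)) F₀ →ₐ[F₀] L') :
            _ →+* L').comp (MvPolynomial.map (φ.comp κ)) := by
    refine MvPolynomial.ringHom_ext ?_ ?_
    · intro a
      simp only [RingHom.comp_apply, AlgHom.toRingHom_eq_coe, RingHom.coe_coe, rename_C, map_C,
        aeval_C, hΘC]
      rfl
    · intro w
      simp only [RingHom.comp_apply, AlgHom.toRingHom_eq_coe, RingHom.coe_coe, rename_X, map_X,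
        aeval_X, hΘX]
      exact (hx w.1).symm
  have h3 := RingHom.congr_fun h2 g'
  have h4 : ((π.comp Θ).comp (rename (Subtype.val :
        {v : Fin n × ℕ | v.1 ∈ J} → Fin n × ℕ) : MvPolynomial _ K →ₐ[K] _).toRingHom) g' = 0 :=
    h1
  rw [h4, RingHom.comp_apply, RingHom.coe_coe] at h3
  have hJind' : AlgebraicIndependent F₀ (fun v : ({v : Fin n × ℕ | v.1 ∈ J} :
      Set (Fin n × ℕ)) => (D')^[v.1.2] (x v.1.1)) := hJind
  have h5 := (algebraicIndependent_iff.1 hJind') _ h3.symm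
  have h6 : g' = 0 := by
    refine MvPolynomial.map_injective (φ.comp κ) (RingHom.injective _) ?_
    rw [h5, map_zero]
  rw [h6]
  exact map_zero _

end Pool.Agent.Helper62.DG
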